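import Pool.Agent.Lib.MP_e4803a.Count

/-!
The abstract lower bound for the numerator of the sixth cumulant.
-/

namespace Pool.Agent.Lib.MP_e4803a

variable {ι : Type*} [Fintype ι]

lemma S6_sum_perm (x : ι → ℤ) (G : (Fin 6 → ℤ) → ℤ) :
    S6 x (fun y => ∑ σ : Equiv.Perm (Fin 6), G (fun i => y (σ i))) = 720 * S6 x G := by
  have h1 : S6 x (fun y => ∑ σ : Equiv.Perm (Fin 6), G (fun i => y (σ i))) =
      ∑ σ : Equiv.Perm (Fin 6), S6 x (fun y => G (fun i => y (σ i))) := by
    unfold S6
    rw [Finset.sum_comm]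
  rw [h1]
  have h2 : ∀ σ : Equiv.Perm (Fin 6), S6 x (fun y => G (fun i => y (σ i))) = S6 x G :=
    fun σ => S6_perm x σ σ.bijective G
  simp only [h2, Finset.sum_const, Finset.card_univ, Fintype.card_perm, Fintype.card_fin,
    nsmul_eq_mul]
  norm_num [Nat.factorial]

section

variable (x : ι → ℤ) (C : ℤ)

lemma S6_U_le (hx0 : ∀ t, x t ≠ 0) (hC : 0 ≤ C)
    (hA : ∀ N : ℤ, N ≠ 0 → (∑ a, ∑ b, if x a + x b = N then (1 : ℤ) else 0) ≤ C)
    (hB : ∀ m : ℕ, (∑ a, if (x a).natAbs = m then (1 : ℤ) else 0) ≤ C) :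
    S6 x (fun y => if Uprop y then 1 else 0) ≤ C * C * C * (Fintype.card ι : ℤ) := by
  have h1 := S6_nested x (fun a b c d f g => if (a + b + c = 0 ∧ d + f + g = 0 ∧
    a.natAbs = d.natAbs) then (1 : ℤ) else 0)
  have h2 : S6 x (fun y => if Uprop y then 1 else 0) = S6 x (fun y =>
      (fun a b c d f g => if (a + b + c = 0 ∧ d + f + g = 0 ∧
    a.natAbs = d.natAbs) then (1 : ℤ) else 0) (y 0) (y 1) (y 2) (y 3) (y 4) (y 5)) := rfl
  rw [h2, h1]
  have h3 : ∀ a : ι, (∑ b, ∑ c, ∑ d, ∑ f, ∑ g, if (x a + x b + x c = 0 ∧ x d + x f + x g = 0 ∧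
      (x a).natAbs = (x d).natAbs) then (1 : ℤ) else 0) ≤ C * C * C := by
    intro a
    have e1 : (∑ b, ∑ c, ∑ d, ∑ f, ∑ g, if (x a + x b + x c = 0 ∧ x d + x f + x g = 0 ∧
      (x a).natAbs = (x d).natAbs) then (1 : ℤ) else 0) =
        (∑ b, ∑ c, if x b + x c = - x a then (1 : ℤ) else 0) *
        (∑ d, (if (x d).natAbs = (x a).natAbs then (1 : ℤ) else 0) *
          ∑ f, ∑ g, if x f + x g = - x d then (1 : ℤ) else 0) := by
      rw [Finset.sum_mul]
      refine Finset.sum_congr rfl fun b _ => ?_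
      rw [Finset.sum_mul]
      refine Finset.sum_congr rfl fun c _ => ?_
      rw [Finset.mul_sum]
      refine Finset.sum_congr rfl fun d _ => ?_
      rw [Finset.mul_sum, Finset.mul_sum]
      refine Finset.sum_congr rfl fun f _ => ?_
      rw [Finset.mul_sum, Finset.mul_sum]
      refine Finset.sum_congr rfl fun g _ => ?_
      by_cases p1 : x b + x c = - x a
      · have p1' : x a + x b + x c = 0 := by linarith
        by_cases p2 : (x d).natAbs = (x a).natAbs
        · by_cases p3 : x f + x g = - x d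
          · have p3' : x d + x f + x g = 0 := by linarith
            rw [if_pos ⟨p1', p3', p2.symm⟩, if_pos p1, if_pos p2, if_pos p3]; norm_num
          · have p3' : ¬ (x d + x f + x g = 0) := fun h => p3 (by linarith)
            rw [if_neg (fun h => p3' h.2.1), if_neg p3]; ring
        · rw [if_neg (fun h => p2 h.2.2.symm), if_neg p2]; ring
      · have p1' : ¬ (x a + x b + x c = 0) := fun h => p1 (by linarith)
        rw [if_neg (fun h => p1' h.1), if_neg p1]; ring
    rw [e1]
    have b1 := hA (- x a) (by simpa using hx0 a)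
    have b2 : (∑ d, (if (x d).natAbs = (x a).natAbs then (1 : ℤ) else 0) *
          ∑ f, ∑ g, if x f + x g = - x d then (1 : ℤ) else 0) ≤ C * C := by
      calc _ ≤ ∑ d, (if (x d).natAbs = (x a).natAbs then (1 : ℤ) else 0) * C := by
            refine Finset.sum_le_sum fun d _ => ?_
            refine mul_le_mul_of_nonneg_left (hA (- x d) (by simpa using hx0 d)) ?_
            split_ifs <;> norm_num
        _ = (∑ d, if (x d).natAbs = (x a).natAbs then (1 : ℤ) else 0) * C := by
            rw [Finset.sum_mul]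
        _ ≤ C * C := mul_le_mul_of_nonneg_right (hB _) hC
    have b0 : 0 ≤ (∑ d, (if (x d).natAbs = (x a).natAbs then (1 : ℤ) else 0) *
          ∑ f, ∑ g, if x f + x g = - x d then (1 : ℤ) else 0) := by
      refine Finset.sum_nonneg fun d _ => mul_nonneg (by split_ifs <;> norm_num) ?_
      exact Finset.sum_nonneg fun f _ => Finset.sum_nonneg fun g _ => by split_ifs <;> norm_num
    calc _ ≤ C * (C * C) := mul_le_mul b1 b2 b0 hC
      _ = C * C * C := by ring
  calc _ ≤ ∑ a : ι, C * C * C := Finset.sum_le_sum fun a _ => h3 a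
    _ = C * C * C * (Fintype.card ι : ℤ) := by
      rw [Finset.sum_const, Finset.card_univ, nsmul_eq_mul]; ring

lemma S6_T_le (hC : 0 ≤ C)
    (hA : ∀ N : ℤ, N ≠ 0 → (∑ a, ∑ b, if x a + x b = N then (1 : ℤ) else 0) ≤ C)
    (hB : ∀ m : ℕ, (∑ a, if (x a).natAbs = m then (1 : ℤ) else 0) ≤ C)
    (hD : ∀ t, (∑ a, if ((x a).natAbs ≤ (x t).natAbs ∧ (x t).natAbs ≤ 3 * (x a).natAbs)
      then (1 : ℤ) else 0) ≤ C) :
    S6 x (fun y => if Tprop y then 1 else 0) ≤ 4 * C * C * C * C * (Fintype.card ι : ℤ) := by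
  have h1 := S6_nested x (fun a b c d f g => if (a + b + c + d = 0 ∧ a + b ≠ 0 ∧
    b.natAbs ≤ a.natAbs ∧ a.natAbs ≤ 3 * b.natAbs ∧ f + g = 0 ∧ (f.natAbs = a.natAbs ∨
    f.natAbs = b.natAbs ∨ f.natAbs = c.natAbs ∨ f.natAbs = d.natAbs)) then (1 : ℤ) else 0)
  have h2 : S6 x (fun y => if Tprop y then 1 else 0) = S6 x (fun y =>
      (fun a b c d f g => if (a + b + c + d = 0 ∧ a + b ≠ 0 ∧
    b.natAbs ≤ a.natAbs ∧ a.natAbs ≤ 3 * b.natAbs ∧ f + g = 0 ∧ (f.natAbs = a.natAbs ∨
    f.natAbs = b.natAbs ∨ f.natAbs = c.natAbs ∨ f.natAbs = d.natAbs)) then (1 : ℤ) else 0)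
      (y 0) (y 1) (y 2) (y 3) (y 4) (y 5)) := rfl
  rw [h2, h1]
  -- innermost two sums
  have hin : ∀ a b c d : ι, (∑ f, ∑ g, if (x a + x b + x c + x d = 0 ∧ x a + x b ≠ 0 ∧
      (x b).natAbs ≤ (x a).natAbs ∧ (x a).natAbs ≤ 3 * (x b).natAbs ∧ x f + x g = 0 ∧
      ((x f).natAbs = (x a).natAbs ∨ (x f).natAbs = (x b).natAbs ∨ (x f).natAbs = (x c).natAbs ∨
        (x f).natAbs = (x d).natAbs)) then (1 : ℤ) else 0) ≤
      (if ((x b).natAbs ≤ (x a).natAbs ∧ (x a).natAbs ≤ 3 * (x b).natAbs) then (1 : ℤ) else 0) *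
      (if (x a + x b ≠ 0 ∧ x c + x d = - (x a + x b)) then 4 * C * C else 0) := by
    intro a b c d
    by_cases p1 : ((x b).natAbs ≤ (x a).natAbs ∧ (x a).natAbs ≤ 3 * (x b).natAbs)
    · by_cases p2 : (x a + x b ≠ 0 ∧ x c + x d = - (x a + x b))
      · rw [if_pos p1, if_pos p2, one_mul]
        have s1 : ∀ f : ι, (∑ g, if (x a + x b + x c + x d = 0 ∧ x a + x b ≠ 0 ∧
            (x b).natAbs ≤ (x a).natAbs ∧ (x a).natAbs ≤ 3 * (x b).natAbs ∧ x f + x g = 0 ∧
            ((x f).natAbs = (x a).natAbs ∨ (x f).natAbs = (x b).natAbs ∨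
              (x f).natAbs = (x c).natAbs ∨ (x f).natAbs = (x d).natAbs)) then (1 : ℤ) else 0) ≤
            ((if (x f).natAbs = (x a).natAbs then (1 : ℤ) else 0) +
             (if (x f).natAbs = (x b).natAbs then (1 : ℤ) else 0) +
             (if (x f).natAbs = (x c).natAbs then (1 : ℤ) else 0) +
             (if (x f).natAbs = (x d).natAbs then (1 : ℤ) else 0)) * C := by
          intro f
          calc _ ≤ ∑ g, ((if (x f).natAbs = (x a).natAbs then (1 : ℤ) else 0) +
             (if (x f).natAbs = (x b).natAbs then (1 : ℤ) else 0) +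
             (if (x f).natAbs = (x c).natAbs then (1 : ℤ) else 0) +
             (if (x f).natAbs = (x d).natAbs then (1 : ℤ) else 0)) *
               (if (x g).natAbs = (x f).natAbs then (1 : ℤ) else 0) := by
                refine Finset.sum_le_sum fun g _ => ?_
                have i1 : (0 : ℤ) ≤ (if (x f).natAbs = (x a).natAbs then (1 : ℤ) else 0) := by
                  split_ifs <;> norm_num
                have i2 : (0 : ℤ) ≤ (if (x f).natAbs = (x b).natAbs then (1 : ℤ) else 0) := by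
                  split_ifs <;> norm_num
                have i3 : (0 : ℤ) ≤ (if (x f).natAbs = (x c).natAbs then (1 : ℤ) else 0) := by
                  split_ifs <;> norm_num
                have i4 : (0 : ℤ) ≤ (if (x f).natAbs = (x d).natAbs then (1 : ℤ) else 0) := by
                  split_ifs <;> norm_num
                by_cases hp : (x a + x b + x c + x d = 0 ∧ x a + x b ≠ 0 ∧
                    (x b).natAbs ≤ (x a).natAbs ∧ (x a).natAbs ≤ 3 * (x b).natAbs ∧
                    x f + x g = 0 ∧ ((x f).natAbs = (x a).natAbs ∨ (x f).natAbs = (x b).natAbs ∨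
                    (x f).natAbs = (x c).natAbs ∨ (x f).natAbs = (x d).natAbs))
                · rw [if_pos hp]
                  obtain ⟨-, -, -, -, q5, q⟩ := hp
                  have hg : (x g).natAbs = (x f).natAbs := by
                    have : x g = - x f := by linarith
                    rw [this, Int.natAbs_neg]
                  rw [if_pos hg, mul_one]
                  rcases q with q | q | q | q
                  · rw [if_pos q] at i1 ⊢; linarith
                  · rw [if_pos q] at i2 ⊢; linarith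
                  · rw [if_pos q] at i3 ⊢; linarith
                  · rw [if_pos q] at i4 ⊢; linarith
                · rw [if_neg hp]
                  exact mul_nonneg (by linarith) (by split_ifs <;> norm_num)
            _ ≤ _ := by
                rw [← Finset.mul_sum]
                refine mul_le_mul_of_nonneg_left (hB _) ?_
                have i1 : (0 : ℤ) ≤ (if (x f).natAbs = (x a).natAbs then (1 : ℤ) else 0) := by
                  split_ifs <;> norm_num
                have i2 : (0 : ℤ) ≤ (if (x f).natAbs = (x b).natAbs then (1 : ℤ) else 0) := by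
                  split_ifs <;> norm_num
                have i3 : (0 : ℤ) ≤ (if (x f).natAbs = (x c).natAbs then (1 : ℤ) else 0) := by
                  split_ifs <;> norm_num
                have i4 : (0 : ℤ) ≤ (if (x f).natAbs = (x d).natAbs then (1 : ℤ) else 0) := by
                  split_ifs <;> norm_num
                linarith
        refine le_trans (Finset.sum_le_sum fun f _ => s1 f) ?_
        rw [← Finset.sum_mul, Finset.sum_add_distrib, Finset.sum_add_distrib,
          Finset.sum_add_distrib]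
        have j1 := hB (x a).natAbs
        have j2 := hB (x b).natAbs
        have j3 := hB (x c).natAbs
        have j4 := hB (x d).natAbs
        refine mul_le_mul_of_nonneg_right ?_ hC
        linarith
      · rw [if_neg p2, mul_zero]
        refine le_of_eq (Finset.sum_eq_zero fun f _ => Finset.sum_eq_zero fun g _ => ?_)
        rw [if_neg]
        rintro ⟨q1, q2, -⟩
        exact p2 ⟨q2, by linarith⟩
    · rw [if_neg p1, zero_mul]
      refine le_of_eq (Finset.sum_eq_zero fun f _ => Finset.sum_eq_zero fun g _ => ?_)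
      rw [if_neg]
      rintro ⟨-, -, q1, q2, -⟩
      exact p1 ⟨q1, q2⟩
  have hCC : 0 ≤ 4 * C * C := by positivity
  have h3 : ∀ a b : ι, (∑ c, ∑ d, ∑ f, ∑ g, if (x a + x b + x c + x d = 0 ∧ x a + x b ≠ 0 ∧
      (x b).natAbs ≤ (x a).natAbs ∧ (x a).natAbs ≤ 3 * (x b).natAbs ∧ x f + x g = 0 ∧
      ((x f).natAbs = (x a).natAbs ∨ (x f).natAbs = (x b).natAbs ∨ (x f).natAbs = (x c).natAbs ∨
        (x f).natAbs = (x d).natAbs)) then (1 : ℤ) else 0) ≤
      (if ((x b).natAbs ≤ (x a).natAbs ∧ (x a).natAbs ≤ 3 * (x b).natAbs) then (1 : ℤ) else 0) *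
      (4 * C * C * C) := by
    intro a b
    refine le_trans (Finset.sum_le_sum fun c _ => Finset.sum_le_sum fun d _ => hin a b c d) ?_
    simp only [← Finset.mul_sum]
    refine mul_le_mul_of_nonneg_left ?_ (by split_ifs <;> norm_num)
    by_cases p2 : x a + x b ≠ 0
    · have : (∑ c, ∑ d, if (x a + x b ≠ 0 ∧ x c + x d = - (x a + x b)) then 4 * C * C else 0) =
          (4 * C * C) * ∑ c, ∑ d, if x c + x d = - (x a + x b) then (1 : ℤ) else 0 := by
        rw [Finset.mul_sum]
        refine Finset.sum_congr rfl fun c _ => ?_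
        rw [Finset.mul_sum]
        refine Finset.sum_congr rfl fun d _ => ?_
        by_cases p3 : x c + x d = - (x a + x b)
        · rw [if_pos ⟨p2, p3⟩, if_pos p3, mul_one]
        · rw [if_neg (fun h => p3 h.2), if_neg p3, mul_zero]
      rw [this]
      exact mul_le_mul_of_nonneg_left (hA _ (by intro h; apply p2; linarith)) hCC
    · have : (∑ c : ι, ∑ d : ι, if (x a + x b ≠ 0 ∧ x c + x d = - (x a + x b)) then 4 * C * C else 0)
          = 0 := Finset.sum_eq_zero fun c _ => Finset.sum_eq_zero fun d _ => by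
            rw [if_neg (fun h => p2 h.1)]
      rw [this]; positivity
  have h4 : ∀ a : ι, (∑ b, ∑ c, ∑ d, ∑ f, ∑ g, if (x a + x b + x c + x d = 0 ∧ x a + x b ≠ 0 ∧
      (x b).natAbs ≤ (x a).natAbs ∧ (x a).natAbs ≤ 3 * (x b).natAbs ∧ x f + x g = 0 ∧
      ((x f).natAbs = (x a).natAbs ∨ (x f).natAbs = (x b).natAbs ∨ (x f).natAbs = (x c).natAbs ∨
        (x f).natAbs = (x d).natAbs)) then (1 : ℤ) else 0) ≤ C * (4 * C * C * C) := by
    intro a
    refine le_trans (Finset.sum_le_sum fun b _ => h3 a b) ?_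
    rw [← Finset.sum_mul]
    exact mul_le_mul_of_nonneg_right (hD a) (by positivity)
  calc _ ≤ ∑ a : ι, C * (4 * C * C * C) := Finset.sum_le_sum fun a _ => h4 a
    _ = 4 * C * C * C * C * (Fintype.card ι : ℤ) := by
      rw [Finset.sum_const, Finset.card_univ, nsmul_eq_mul]; ring

/-- Abstract lower bound. -/
theorem numerator_lower (hx0 : ∀ t, x t ≠ 0) (hC : 1 ≤ C)
    (hA : ∀ N : ℤ, N ≠ 0 → (∑ a, ∑ b, if x a + x b = N then (1 : ℤ) else 0) ≤ C)
    (hB : ∀ m : ℕ, (∑ a, if (x a).natAbs = m then (1 : ℤ) else 0) ≤ C)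
    (hD : ∀ t, (∑ a, if ((x a).natAbs ≤ (x t).natAbs ∧ (x t).natAbs ≤ 3 * (x a).natAbs)
      then (1 : ℤ) else 0) ≤ C)
    (L : Finset (Fin 6 → ι)) (hL : ∀ τ ∈ L, Wt (fun i => x (τ i)) = 1) :
    (L.card : ℤ) - 24 * 720 * 5 * C ^ 4 * (Fintype.card ι : ℤ) ≤
      NN x 6 - 15 * NN x 4 * NN x 2 - 10 * (NN x 3) ^ 2 + 30 * (NN x 2) ^ 3 := by
  have hC0 : 0 ≤ C := by linarith
  rw [← S6_Wt]
  have hU := S6_U_le x C hx0 hC0 hA hB
  have hT := S6_T_le x C hC0 hA hB hD
  have hUs : S6 x Usum = 720 * S6 x (fun y => if Uprop y then 1 else 0) :=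
    S6_sum_perm x (fun y => if Uprop y then 1 else 0)
  have hTs : S6 x Tsum = 720 * S6 x (fun y => if Tprop y then 1 else 0) :=
    S6_sum_perm x (fun y => if Tprop y then 1 else 0)
  have htot : (L.card : ℤ) ≤ S6 x (fun y => Wt y + 24 * (Usum y + Tsum y)) := by
    unfold S6
    have h1 : (L.card : ℤ) = ∑ τ ∈ L, (1 : ℤ) := by simp
    rw [h1]
    have h2 : ∑ τ ∈ L, (1 : ℤ) ≤ ∑ τ ∈ L, (fun y => Wt y + 24 * (Usum y + Tsum y))
        (fun i => x (τ i)) := by
      refine Finset.sum_le_sum fun τ hτ => ?_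
      have a1 := hL τ hτ
      have a2 := Usum_nonneg (fun i => x (τ i))
      have a3 := Tsum_nonneg (fun i => x (τ i))
      dsimp only
      linarith
    refine le_trans h2 (Finset.sum_le_sum_of_subset_of_nonneg (Finset.subset_univ _) ?_)
    intro τ _ _
    exact Wt_ge _ (fun i => hx0 _)
  have hlin : S6 x (fun y => Wt y + 24 * (Usum y + Tsum y)) =
      S6 x Wt + 24 * (S6 x Usum + S6 x Tsum) := by
    unfold S6
    rw [Finset.sum_add_distrib, ← Finset.mul_sum, Finset.sum_add_distrib]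
  rw [hlin, hUs, hTs] at htot
  have hcard : (0 : ℤ) ≤ (Fintype.card ι : ℤ) := by positivity
  have hpow : C * C * C * (Fintype.card ι : ℤ) ≤ C ^ 4 * (Fintype.card ι : ℤ) := by
    refine mul_le_mul_of_nonneg_right ?_ hcard
    have : C * C * C * 1 ≤ C * C * C * C := mul_le_mul_of_nonneg_left hC (by positivity)
    nlinarith [this]
  have h4 : 4 * C * C * C * C * (Fintype.card ι : ℤ) = 4 * (C ^ 4 * (Fintype.card ι : ℤ)) := by ring
  rw [h4] at hT
  have h5 : 24 * 720 * 5 * C ^ 4 * (Fintype.card ι : ℤ) = 86400 * (C ^ 4 * (Fintype.card ι : ℤ)) := by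
    ring
  rw [h5]
  linarith

end

end Pool.Agent.Lib.MP_e4803a
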