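import Pool.Agent.Lib.MP_e4803a.Sum

/-!
Only boundedly many (times the number of indices) zero-sum 6-tuples have negative weight.
-/

namespace Pool.Agent.Lib.MP_e4803a

/-- base form of the first bad configuration -/
def Uprop (z : Fin 6 → ℤ) : Prop :=
  z 0 + z 1 + z 2 = 0 ∧ z 3 + z 4 + z 5 = 0 ∧ (z 0).natAbs = (z 3).natAbs

instance (z : Fin 6 → ℤ) : Decidable (Uprop z) := by unfold Uprop; infer_instance

/-- base form of the second bad configuration -/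
def Tprop (z : Fin 6 → ℤ) : Prop :=
  z 0 + z 1 + z 2 + z 3 = 0 ∧ z 0 + z 1 ≠ 0 ∧ (z 1).natAbs ≤ (z 0).natAbs ∧
    (z 0).natAbs ≤ 3 * (z 1).natAbs ∧ z 4 + z 5 = 0 ∧
    ((z 4).natAbs = (z 0).natAbs ∨ (z 4).natAbs = (z 1).natAbs ∨ (z 4).natAbs = (z 2).natAbs ∨
      (z 4).natAbs = (z 3).natAbs)

instance (z : Fin 6 → ℤ) : Decidable (Tprop z) := by unfold Tprop; infer_instance

lemma bad1_to_U (z : Fin 6 → ℤ) (h : Bad1 (z 0) (z 1) (z 2) (z 3) (z 4) (z 5)) :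
    ∃ g : Fin 6 → Fin 6, Function.Bijective g ∧ Uprop (fun i => z (g i)) := by
  obtain ⟨h1, h2, h3⟩ := h
  unfold Cross at h3
  rcases h3 with k | k | k | k | k | k | k | k | k
  · exact ⟨![0,1,2,3,4,5], by decide, ⟨by show z 0 + z 1 + z 2 = 0; linarith,
      by show z 3 + z 4 + z 5 = 0; linarith, k⟩⟩
  · exact ⟨![0,1,2,4,3,5], by decide, ⟨by show z 0 + z 1 + z 2 = 0; linarith,
      by show z 4 + z 3 + z 5 = 0; linarith, k⟩⟩
  · exact ⟨![0,1,2,5,3,4], by decide, ⟨by show z 0 + z 1 + z 2 = 0; linarith,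
      by show z 5 + z 3 + z 4 = 0; linarith, k⟩⟩
  · exact ⟨![1,0,2,3,4,5], by decide, ⟨by show z 1 + z 0 + z 2 = 0; linarith,
      by show z 3 + z 4 + z 5 = 0; linarith, k⟩⟩
  · exact ⟨![1,0,2,4,3,5], by decide, ⟨by show z 1 + z 0 + z 2 = 0; linarith,
      by show z 4 + z 3 + z 5 = 0; linarith, k⟩⟩
  · exact ⟨![1,0,2,5,3,4], by decide, ⟨by show z 1 + z 0 + z 2 = 0; linarith,
      by show z 5 + z 3 + z 4 = 0; linarith, k⟩⟩
  · exact ⟨![2,0,1,3,4,5], by decide, ⟨by show z 2 + z 0 + z 1 = 0; linarith,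
      by show z 3 + z 4 + z 5 = 0; linarith, k⟩⟩
  · exact ⟨![2,0,1,4,3,5], by decide, ⟨by show z 2 + z 0 + z 1 = 0; linarith,
      by show z 4 + z 3 + z 5 = 0; linarith, k⟩⟩
  · exact ⟨![2,0,1,5,3,4], by decide, ⟨by show z 2 + z 0 + z 1 = 0; linarith,
      by show z 5 + z 3 + z 4 = 0; linarith, k⟩⟩

/-- auxiliary form of the second bad configuration, with the unpaired quadruple first -/
lemma quad_to_T (z : Fin 6 → ℤ) (h1 : z 4 + z 5 = 0) (h2 : z 0 + z 1 + z 2 + z 3 = 0)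
    (h3 : z 0 + z 1 ≠ 0)
    (h6 : (z 4).natAbs = (z 0).natAbs ∨ (z 4).natAbs = (z 1).natAbs ∨
      (z 4).natAbs = (z 2).natAbs ∨ (z 4).natAbs = (z 3).natAbs)
    (h7 : (z 1).natAbs ≤ (z 0).natAbs) (h8 : (z 0).natAbs ≤ 3 * (z 1).natAbs) :
    Tprop z := ⟨h2, h3, h7, h8, h1, h6⟩

lemma max_of_four (b2 b3 b4 b5 : ℕ) : (b3 ≤ b2 ∧ b4 ≤ b2 ∧ b5 ≤ b2) ∨ (b2 ≤ b3 ∧ b4 ≤ b3 ∧ b5 ≤ b3) ∨
    (b2 ≤ b4 ∧ b3 ≤ b4 ∧ b5 ≤ b4) ∨ (b2 ≤ b5 ∧ b3 ≤ b5 ∧ b4 ≤ b5) := by omega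

lemma third_of_three {m a b c : ℕ} (h : m ≤ a + b + c) : m ≤ 3 * a ∨ m ≤ 3 * b ∨ m ≤ 3 * c := by
  omega

lemma bad2_to_T (z : Fin 6 → ℤ) (h : Bad2 (z 0) (z 1) (z 2) (z 3) (z 4) (z 5)) :
    ∃ g : Fin 6 → Fin 6, Function.Bijective g ∧ Tprop (fun i => z (g i)) := by
  obtain ⟨h1, h2, h3, h4, h5, k⟩ := h
  have a2 : (z 2).natAbs ≤ (z 3).natAbs + (z 4).natAbs + (z 5).natAbs := by clear k; omega
  have a3 : (z 3).natAbs ≤ (z 2).natAbs + (z 4).natAbs + (z 5).natAbs := by clear k; omega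
  have a4 : (z 4).natAbs ≤ (z 2).natAbs + (z 3).natAbs + (z 5).natAbs := by clear k; omega
  have a5 : (z 5).natAbs ≤ (z 2).natAbs + (z 3).natAbs + (z 4).natAbs := by clear k; omega
  have e32 : z 3 + z 2 ≠ 0 := by rw [add_comm]; exact h3
  have e42 : z 4 + z 2 ≠ 0 := by rw [add_comm]; exact h4
  have e52 : z 5 + z 2 ≠ 0 := by rw [add_comm]; exact h5
  have e34 : z 3 + z 4 ≠ 0 := by intro h; apply h5; linarith
  have e35 : z 3 + z 5 ≠ 0 := by intro h; apply h4; linarith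
  have e45 : z 4 + z 5 ≠ 0 := by intro h; apply h3; linarith
  have e43 : z 4 + z 3 ≠ 0 := by rw [add_comm]; exact e34
  have e53 : z 5 + z 3 ≠ 0 := by rw [add_comm]; exact e35
  have e54 : z 5 + z 4 ≠ 0 := by rw [add_comm]; exact e45
  rcases max_of_four (z 2).natAbs (z 3).natAbs (z 4).natAbs (z 5).natAbs with
    ⟨p1, p2, p3⟩ | ⟨p1, p2, p3⟩ | ⟨p1, p2, p3⟩ | ⟨p1, p2, p3⟩
  · rcases third_of_three a2 with q | q | q
    · refine ⟨![2,3,4,5,0,1], by decide, quad_to_T _ h1 ?_ h3 ?_ p1 q⟩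
      · show z 2 + z 3 + z 4 + z 5 = 0; linarith
      · show (z 0).natAbs = (z 2).natAbs ∨ (z 0).natAbs = (z 3).natAbs ∨
          (z 0).natAbs = (z 4).natAbs ∨ (z 0).natAbs = (z 5).natAbs
        tauto
    · refine ⟨![2,4,3,5,0,1], by decide, quad_to_T _ h1 ?_ h4 ?_ p2 q⟩
      · show z 2 + z 4 + z 3 + z 5 = 0; linarith
      · show (z 0).natAbs = (z 2).natAbs ∨ (z 0).natAbs = (z 4).natAbs ∨
          (z 0).natAbs = (z 3).natAbs ∨ (z 0).natAbs = (z 5).natAbs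
        tauto
    · refine ⟨![2,5,3,4,0,1], by decide, quad_to_T _ h1 ?_ h5 ?_ p3 q⟩
      · show z 2 + z 5 + z 3 + z 4 = 0; linarith
      · show (z 0).natAbs = (z 2).natAbs ∨ (z 0).natAbs = (z 5).natAbs ∨
          (z 0).natAbs = (z 3).natAbs ∨ (z 0).natAbs = (z 4).natAbs
        tauto
  · rcases third_of_three a3 with q | q | q
    · refine ⟨![3,2,4,5,0,1], by decide, quad_to_T _ h1 ?_ e32 ?_ p1 q⟩
      · show z 3 + z 2 + z 4 + z 5 = 0; linarith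
      · show (z 0).natAbs = (z 3).natAbs ∨ (z 0).natAbs = (z 2).natAbs ∨
          (z 0).natAbs = (z 4).natAbs ∨ (z 0).natAbs = (z 5).natAbs
        tauto
    · refine ⟨![3,4,2,5,0,1], by decide, quad_to_T _ h1 ?_ e34 ?_ p2 q⟩
      · show z 3 + z 4 + z 2 + z 5 = 0; linarith
      · show (z 0).natAbs = (z 3).natAbs ∨ (z 0).natAbs = (z 4).natAbs ∨
          (z 0).natAbs = (z 2).natAbs ∨ (z 0).natAbs = (z 5).natAbs
        tauto
    · refine ⟨![3,5,2,4,0,1], by decide, quad_to_T _ h1 ?_ e35 ?_ p3 q⟩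
      · show z 3 + z 5 + z 2 + z 4 = 0; linarith
      · show (z 0).natAbs = (z 3).natAbs ∨ (z 0).natAbs = (z 5).natAbs ∨
          (z 0).natAbs = (z 2).natAbs ∨ (z 0).natAbs = (z 4).natAbs
        tauto
  · rcases third_of_three a4 with q | q | q
    · refine ⟨![4,2,3,5,0,1], by decide, quad_to_T _ h1 ?_ e42 ?_ p1 q⟩
      · show z 4 + z 2 + z 3 + z 5 = 0; linarith
      · show (z 0).natAbs = (z 4).natAbs ∨ (z 0).natAbs = (z 2).natAbs ∨
          (z 0).natAbs = (z 3).natAbs ∨ (z 0).natAbs = (z 5).natAbs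
        tauto
    · refine ⟨![4,3,2,5,0,1], by decide, quad_to_T _ h1 ?_ e43 ?_ p2 q⟩
      · show z 4 + z 3 + z 2 + z 5 = 0; linarith
      · show (z 0).natAbs = (z 4).natAbs ∨ (z 0).natAbs = (z 3).natAbs ∨
          (z 0).natAbs = (z 2).natAbs ∨ (z 0).natAbs = (z 5).natAbs
        tauto
    · refine ⟨![4,5,2,3,0,1], by decide, quad_to_T _ h1 ?_ e45 ?_ p3 q⟩
      · show z 4 + z 5 + z 2 + z 3 = 0; linarith
      · show (z 0).natAbs = (z 4).natAbs ∨ (z 0).natAbs = (z 5).natAbs ∨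
          (z 0).natAbs = (z 2).natAbs ∨ (z 0).natAbs = (z 3).natAbs
        tauto
  · rcases third_of_three a5 with q | q | q
    · refine ⟨![5,2,3,4,0,1], by decide, quad_to_T _ h1 ?_ e52 ?_ p1 q⟩
      · show z 5 + z 2 + z 3 + z 4 = 0; linarith
      · show (z 0).natAbs = (z 5).natAbs ∨ (z 0).natAbs = (z 2).natAbs ∨
          (z 0).natAbs = (z 3).natAbs ∨ (z 0).natAbs = (z 4).natAbs
        tauto
    · refine ⟨![5,3,2,4,0,1], by decide, quad_to_T _ h1 ?_ e53 ?_ p2 q⟩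
      · show z 5 + z 3 + z 2 + z 4 = 0; linarith
      · show (z 0).natAbs = (z 5).natAbs ∨ (z 0).natAbs = (z 3).natAbs ∨
          (z 0).natAbs = (z 2).natAbs ∨ (z 0).natAbs = (z 4).natAbs
        tauto
    · refine ⟨![5,4,2,3,0,1], by decide, quad_to_T _ h1 ?_ e54 ?_ p3 q⟩
      · show z 5 + z 4 + z 2 + z 3 = 0; linarith
      · show (z 0).natAbs = (z 5).natAbs ∨ (z 0).natAbs = (z 4).natAbs ∨
          (z 0).natAbs = (z 2).natAbs ∨ (z 0).natAbs = (z 3).natAbs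
        tauto

/-- indicator functions, symmetrised over all permutations of the positions -/
def Usum (y : Fin 6 → ℤ) : ℤ :=
  ∑ σ : Equiv.Perm (Fin 6), if Uprop (fun i => y (σ i)) then 1 else 0
def Tsum (y : Fin 6 → ℤ) : ℤ :=
  ∑ σ : Equiv.Perm (Fin 6), if Tprop (fun i => y (σ i)) then 1 else 0

lemma Usum_nonneg (y : Fin 6 → ℤ) : 0 ≤ Usum y := by
  unfold Usum; exact Finset.sum_nonneg fun σ _ => by split_ifs <;> norm_num
lemma Tsum_nonneg (y : Fin 6 → ℤ) : 0 ≤ Tsum y := by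
  unfold Tsum; exact Finset.sum_nonneg fun σ _ => by split_ifs <;> norm_num

lemma Usum_pos (y : Fin 6 → ℤ) (f : Fin 6 → Fin 6) (hf : Function.Bijective f)
    (h : Uprop (fun i => y (f i))) : 1 ≤ Usum y := by
  unfold Usum
  have := Finset.single_le_sum (f := fun σ : Equiv.Perm (Fin 6) =>
    if Uprop (fun i => y (σ i)) then (1 : ℤ) else 0) (s := Finset.univ)
    (fun σ _ => by split_ifs <;> norm_num) (Finset.mem_univ (Equiv.ofBijective f hf))
  refine le_trans ?_ this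
  have h' : Uprop (fun i => y ((Equiv.ofBijective f hf) i)) := h
  rw [if_pos h']

lemma Tsum_pos (y : Fin 6 → ℤ) (f : Fin 6 → Fin 6) (hf : Function.Bijective f)
    (h : Tprop (fun i => y (f i))) : 1 ≤ Tsum y := by
  unfold Tsum
  have := Finset.single_le_sum (f := fun σ : Equiv.Perm (Fin 6) =>
    if Tprop (fun i => y (σ i)) then (1 : ℤ) else 0) (s := Finset.univ)
    (fun σ _ => by split_ifs <;> norm_num) (Finset.mem_univ (Equiv.ofBijective f hf))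
  refine le_trans ?_ this
  have h' : Tprop (fun i => y ((Equiv.ofBijective f hf) i)) := h
  rw [if_pos h']

lemma Wt_ge (y : Fin 6 → ℤ) (hy : ∀ i, y i ≠ 0) : 0 ≤ Wt y + 24 * (Usum y + Tsum y) := by
  have hU := Usum_nonneg y
  have hT := Tsum_nonneg y
  unfold Wt
  split_ifs with hs
  · have hlow := WW_lower (y 0) (y 1) (y 2) (y 3) (y 4) (y 5)
    by_cases hbU : ∃ f : Fin 6 → Fin 6, Function.Bijective f ∧ Uprop (fun i => y (f i))
    · obtain ⟨f, hf, hfu⟩ := hbU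
      have := Usum_pos y f hf hfu
      linarith
    by_cases hbT : ∃ f : Fin 6 → Fin 6, Function.Bijective f ∧ Tprop (fun i => y (f i))
    · obtain ⟨f, hf, hft⟩ := hbT
      have := Tsum_pos y f hf hft
      linarith
    have n1 : ∀ f : Fin 6 → Fin 6, Function.Bijective f →
        ¬ Bad1 (y (f 0)) (y (f 1)) (y (f 2)) (y (f 3)) (y (f 4)) (y (f 5)) := by
      intro f hf hb
      obtain ⟨g, hg, hgu⟩ := bad1_to_U (fun i => y (f i)) hb
      exact hbU ⟨f ∘ g, hf.comp hg, hgu⟩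
    have n2 : ∀ f : Fin 6 → Fin 6, Function.Bijective f →
        ¬ Bad2 (y (f 0)) (y (f 1)) (y (f 2)) (y (f 3)) (y (f 4)) (y (f 5)) := by
      intro f hf hb
      obtain ⟨g, hg, hgu⟩ := bad2_to_T (fun i => y (f i)) hb
      exact hbT ⟨f ∘ g, hf.comp hg, hgu⟩
    have hW : 0 ≤ WW (y 0) (y 1) (y 2) (y 3) (y 4) (y 5) :=
      WW_nonneg (hy 0) (hy 1) (hy 2) (hy 3) (hy 4) (hy 5) hs
        (n1 ![0,1,2,3,4,5] (by decide)) (n1 ![0,1,3,2,4,5] (by decide))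
        (n1 ![0,1,4,2,3,5] (by decide)) (n1 ![0,1,5,2,3,4] (by decide))
        (n1 ![0,2,3,1,4,5] (by decide)) (n1 ![0,2,4,1,3,5] (by decide))
        (n1 ![0,2,5,1,3,4] (by decide)) (n1 ![0,3,4,1,2,5] (by decide))
        (n1 ![0,3,5,1,2,4] (by decide)) (n1 ![0,4,5,1,2,3] (by decide))
        (n2 ![0,1,2,3,4,5] (by decide)) (n2 ![0,2,1,3,4,5] (by decide))
        (n2 ![0,3,1,2,4,5] (by decide)) (n2 ![0,4,1,2,3,5] (by decide))
        (n2 ![0,5,1,2,3,4] (by decide)) (n2 ![1,2,0,3,4,5] (by decide))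
        (n2 ![1,3,0,2,4,5] (by decide)) (n2 ![1,4,0,2,3,5] (by decide))
        (n2 ![1,5,0,2,3,4] (by decide)) (n2 ![2,3,0,1,4,5] (by decide))
        (n2 ![2,4,0,1,3,5] (by decide)) (n2 ![2,5,0,1,3,4] (by decide))
        (n2 ![3,4,0,1,2,5] (by decide)) (n2 ![3,5,0,1,2,4] (by decide))
        (n2 ![4,5,0,1,2,3] (by decide))
    linarith
  · linarith

end Pool.Agent.Lib.MP_e4803a
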