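import Pool.Agent.Lib.MP_e4803a.Defs

/-!
Sixth cumulant in terms of moments, for centred bounded random variables on `[0,1]`.
-/

namespace Pool.Agent.Lib.MP_e4803a

open MeasureTheory ProbabilityTheory Filter Topology

/-- Leibniz recursion between the Taylor coefficients of `M` and `log M`. -/
lemma iteratedDeriv_log_rec {M : ℝ → ℝ} (hM : AnalyticAt ℝ M 0) (h0 : 0 < M 0) (n : ℕ) :
    iteratedDeriv (n + 1) M 0 =
      ∑ i ∈ Finset.range (n + 1), (n.choose i : ℝ) *
        iteratedDeriv (i + 1) (fun t => Real.log (M t)) 0 * iteratedDeriv (n - i) M 0 := by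
  have hL : AnalyticAt ℝ (fun t => Real.log (M t)) 0 := hM.log h0
  have hLd : AnalyticAt ℝ (deriv (fun t => Real.log (M t))) 0 := hL.deriv
  have hpos : ∀ᶠ t in 𝓝 (0 : ℝ), 0 < M t := hM.continuousAt.eventually (lt_mem_nhds h0)
  have hdiff : ∀ᶠ t in 𝓝 (0 : ℝ), AnalyticAt ℝ M t := hM.eventually_analyticAt
  have hev : deriv M =ᶠ[𝓝 0] (deriv (fun t => Real.log (M t)) * M) := by
    filter_upwards [hpos, hdiff] with t ht hat
    have := deriv.log hat.differentiableAt ht.ne'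
    simp only [Pi.mul_apply]
    rw [this]
    field_simp
  rw [iteratedDeriv_succ', hev.iteratedDeriv_eq,
    iteratedDeriv_mul hLd.contDiffAt hM.contDiffAt]
  refine Finset.sum_congr rfl fun i _ => ?_
  rw [iteratedDeriv_succ' (f := fun t => Real.log (M t))]

lemma iteratedDeriv_six_log {M : ℝ → ℝ} (hM : AnalyticAt ℝ M 0) (h0 : M 0 = 1)
    (h1 : iteratedDeriv 1 M 0 = 0) :
    iteratedDeriv 6 (fun t => Real.log (M t)) 0 =
      iteratedDeriv 6 M 0 - 15 * iteratedDeriv 4 M 0 * iteratedDeriv 2 M 0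
        - 10 * (iteratedDeriv 3 M 0) ^ 2 + 30 * (iteratedDeriv 2 M 0) ^ 3 := by
  have hpos : 0 < M 0 := by rw [h0]; norm_num
  have e0 : iteratedDeriv 0 M 0 = 1 := by simp [h0]
  have r0 := iteratedDeriv_log_rec hM hpos 0
  have r1 := iteratedDeriv_log_rec hM hpos 1
  have r2 := iteratedDeriv_log_rec hM hpos 2
  have r3 := iteratedDeriv_log_rec hM hpos 3
  have r4 := iteratedDeriv_log_rec hM hpos 4
  have r5 := iteratedDeriv_log_rec hM hpos 5
  simp only [Finset.sum_range_succ, Finset.sum_range_zero, Nat.choose] at r0 r1 r2 r3 r4 r5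
  norm_num at r0 r1 r2 r3 r4 r5
  rw [h0] at r0 r1 r2 r3 r4 r5
  rw [iteratedDeriv_one] at h1
  rw [h1] at r0 r1 r2 r3 r4 r5
  set k1 := deriv (fun t => Real.log (M t)) 0
  set k2 := iteratedDeriv 2 (fun t => Real.log (M t)) 0
  set k3 := iteratedDeriv 3 (fun t => Real.log (M t)) 0
  set k4 := iteratedDeriv 4 (fun t => Real.log (M t)) 0
  set k5 := iteratedDeriv 5 (fun t => Real.log (M t)) 0
  set k6 := iteratedDeriv 6 (fun t => Real.log (M t)) 0
  set m2 := iteratedDeriv 2 M 0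
  set m3 := iteratedDeriv 3 M 0
  set m4 := iteratedDeriv 4 M 0
  set m5 := iteratedDeriv 5 M 0
  set m6 := iteratedDeriv 6 M 0
  have hk1 : k1 = 0 := by linarith
  rw [hk1] at r1 r2 r3 r4 r5
  have hk2 : k2 = m2 := by linarith
  have hk3 : k3 = m3 := by linarith
  rw [hk2] at r3 r4 r5
  rw [hk3] at r4 r5
  have hk4 : k4 = m4 - 3 * m2 * m2 := by linarith
  rw [hk4] at r5
  nlinarith [r5]

/-- The sixth cumulant of a bounded continuous centred variable on `[0,1]`. -/
lemma cumulant_six {X : ℝ → ℝ} (hX : Continuous X) (h1 : ∫ ω in (0 : ℝ)..1, X ω = 0) :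
    cumulant 6 X =
      (∫ ω in (0 : ℝ)..1, X ω ^ 6)
        - 15 * (∫ ω in (0 : ℝ)..1, X ω ^ 4) * (∫ ω in (0 : ℝ)..1, X ω ^ 2)
        - 10 * (∫ ω in (0 : ℝ)..1, X ω ^ 3) ^ 2
        + 30 * (∫ ω in (0 : ℝ)..1, X ω ^ 2) ^ 3 := by
  set μ : Measure ℝ := volume.restrict (Set.Ioc (0 : ℝ) 1) with hμ
  have hint : ∀ f : ℝ → ℝ, (∫ ω in (0 : ℝ)..1, f ω) = ∫ ω, f ω ∂μ := by
    intro f
    rw [intervalIntegral.integral_of_le zero_le_one]
  have hexp : ∀ t : ℝ, Integrable (fun ω => Real.exp (t * X ω)) μ := by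
    intro t
    have hc : Continuous (fun ω => Real.exp (t * X ω)) := by fun_prop
    exact (hc.integrableOn_Icc (a := 0) (b := 1)).mono_set Set.Ioc_subset_Icc_self
  have hset : integrableExpSet X μ = Set.univ := by
    ext t
    simp only [integrableExpSet, Set.mem_ofPred_eq, Set.mem_univ, iff_true]
    exact hexp t
  have h0mem : (0 : ℝ) ∈ interior (integrableExpSet X μ) := by
    rw [hset]; simp
  have hmgf : (fun t : ℝ => ∫ ω in (0 : ℝ)..1, Real.exp (t * X ω)) = mgf X μ := by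
    funext t
    rw [hint]; rfl
  have hiter : ∀ n : ℕ, iteratedDeriv n (mgf X μ) 0 = ∫ ω in (0 : ℝ)..1, X ω ^ n := by
    intro n
    rw [iteratedDeriv_mgf_zero h0mem n, hint]
    rfl
  have hM : AnalyticAt ℝ (mgf X μ) 0 := analyticAt_mgf h0mem
  have hM0 : mgf X μ 0 = 1 := by
    have := hiter 0
    simpa using this
  have hM1 : iteratedDeriv 1 (mgf X μ) 0 = 0 := by
    rw [hiter 1]; simpa using h1
  have := iteratedDeriv_six_log hM hM0 hM1
  unfold cumulant
  have hfun : (fun t : ℝ => Real.log (∫ ω in (0 : ℝ)..1, Real.exp (t * X ω)))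
      = fun t => Real.log (mgf X μ t) := by
    funext t
    rw [← hmgf]
  rw [hfun, this, hiter 6, hiter 4, hiter 3, hiter 2]

end Pool.Agent.Lib.MP_e4803a
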