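import Mathlib

/-!
Definitions for MP_e4803a: cumulants of the cosine sums `S_n(ω) = ∑_{k ≤ n} cos (2π a_k ω)`
with `a_k = ⌊η^k⌋`, viewed as random variables on `[0,1]` with Lebesgue measure.
-/

namespace Pool.Agent.Lib.MP_e4803a

/-- `a_k = ⌊η^k⌋` (for `η > 1` and `k ≥ 1` this is a positive integer). -/
noncomputable def floorPow (η : ℝ) (k : ℕ) : ℕ := ⌊η ^ k⌋₊

/-- `S_n(ω) = ∑_{k=1}^n cos (2π a_k ω)` for the sequence `a_k = ⌊η^k⌋`. -/
noncomputable def cosSum (η : ℝ) (n : ℕ) (ω : ℝ) : ℝ :=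
  ∑ k ∈ Finset.Icc 1 n, Real.cos (2 * Real.pi * (floorPow η k : ℝ) * ω)

/-- The `m`-th cumulant `d^m/dt^m log E[exp (t X)]` at `t = 0` of `X`, viewed as a random variable
on `[0,1]` with Lebesgue measure. -/
noncomputable def cumulant (m : ℕ) (X : ℝ → ℝ) : ℝ :=
  iteratedDeriv m (fun t : ℝ => Real.log (∫ ω in (0 : ℝ)..1, Real.exp (t * X ω))) 0

/-- Perron numbers: real algebraic integers `η > 1` all of whose other Galois conjugates (the other
complex roots of the minimal polynomial over `ℚ`) have absolute value strictly less than `η`. -/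
def IsPerron (η : ℝ) : Prop :=
  1 < η ∧ IsIntegral ℤ η ∧
    ∀ z : ℂ, Polynomial.aeval z (minpoly ℚ η) = 0 → z ≠ (η : ℂ) → ‖z‖ < η

end Pool.Agent.Lib.MP_e4803a
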