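import Pool.Agent.Lib.MP_e4803a.Defs

/-!
The number `√φ`: algebraic, not Perron, and the exact relation
`a_{k+4} = a_{k+2} + a_k + 1` for `k ≡ 2 (mod 4)`.
-/

namespace Pool.Agent.Lib.MP_e4803a

open Real

/-- the square root of the golden ratio -/
noncomputable def sqrtGolden : ℝ := Real.sqrt Real.goldenRatio

lemma sqrtGolden_sq : sqrtGolden ^ 2 = Real.goldenRatio :=
  Real.sq_sqrt Real.goldenRatio_pos.le

lemma one_lt_sqrtGolden : 1 < sqrtGolden := by
  unfold sqrtGolden
  rw [Real.lt_sqrt (by norm_num)]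
  simpa using Real.one_lt_goldenRatio

lemma sqrtGolden_pow_even (j : ℕ) : sqrtGolden ^ (2 * j) = Real.goldenRatio ^ j := by
  rw [pow_mul, sqrtGolden_sq]

/-- the Lucas numbers -/
def luc : ℕ → ℤ
  | 0 => 2
  | 1 => 1
  | (n + 2) => luc (n + 1) + luc n

lemma luc_eq (n : ℕ) : (luc n : ℝ) = Real.goldenRatio ^ n + Real.goldenConj ^ n := by
  induction n using Nat.strong_induction_on with
  | _ n ih =>
    match n with
    | 0 => simp [luc]; norm_num
    | 1 => simp [luc]
    | (n + 2) =>
      have h1 := ih (n + 1) (by omega)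
      have h2 := ih n (by omega)
      show ((luc (n + 1) + luc n : ℤ) : ℝ) = _
      push_cast
      rw [h1, h2]
      have e1 : Real.goldenRatio ^ (n + 2) = Real.goldenRatio ^ n * (Real.goldenRatio ^ 2) := by ring
      have e2 : Real.goldenConj ^ (n + 2) = Real.goldenConj ^ n * (Real.goldenConj ^ 2) := by ring
      rw [e1, e2, Real.goldenRatio_sq, Real.goldenConj_sq]
      ring

lemma conj_abs_lt : |Real.goldenConj| < 1 := by
  rw [abs_lt]
  exact ⟨Real.neg_one_lt_goldenConj, by linarith [Real.goldenConj_neg]⟩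

lemma floor_odd {j : ℕ} (hj : Odd j) : (floorPow sqrtGolden (2 * j) : ℤ) = luc j := by
  unfold floorPow
  rw [sqrtGolden_pow_even, Int.natCast_floor_eq_floor (by positivity [Real.goldenRatio_pos])]
  rw [Int.floor_eq_iff]
  have h1 := luc_eq j
  have h2 : Real.goldenConj ^ j < 0 := hj.pow_neg Real.goldenConj_neg
  have h3 : |Real.goldenConj ^ j| < 1 := by
    rw [abs_pow]
    exact pow_lt_one₀ (abs_nonneg _) conj_abs_lt (by rintro rfl; simp at hj)
  rw [abs_lt] at h3
  constructor <;> linarith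

lemma floor_even {j : ℕ} (hj : Even j) (hj0 : j ≠ 0) :
    (floorPow sqrtGolden (2 * j) : ℤ) = luc j - 1 := by
  unfold floorPow
  rw [sqrtGolden_pow_even, Int.natCast_floor_eq_floor (by positivity [Real.goldenRatio_pos])]
  rw [Int.floor_eq_iff]
  have h1 := luc_eq j
  have h2 : 0 < Real.goldenConj ^ j := hj.pow_pos (Real.goldenConj_neg.ne)
  have h3 : |Real.goldenConj ^ j| < 1 := by
    rw [abs_pow]
    exact pow_lt_one₀ (abs_nonneg _) conj_abs_lt hj0
  rw [abs_lt] at h3
  push_cast
  constructor <;> linarith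

/-- the exact relation with remainder `1` -/
lemma golden_relation (i : ℕ) : floorPow sqrtGolden (4 * i + 6) =
    floorPow sqrtGolden (4 * i + 4) + floorPow sqrtGolden (4 * i + 2) + 1 := by
  have h1 := floor_odd (j := 2 * i + 3) ⟨i + 1, by ring⟩
  have h2 := floor_even (j := 2 * i + 2) ⟨i + 1, by ring⟩ (by omega)
  have h3 := floor_odd (j := 2 * i + 1) ⟨i, by ring⟩
  have e1 : 2 * (2 * i + 3) = 4 * i + 6 := by ring
  have e2 : 2 * (2 * i + 2) = 4 * i + 4 := by ring
  have e3 : 2 * (2 * i + 1) = 4 * i + 2 := by ring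
  rw [e1] at h1
  rw [e2] at h2
  rw [e3] at h3
  have h4 : luc (2 * i + 3) = luc (2 * i + 2) + luc (2 * i + 1) := rfl
  omega

/-- growth: the values at least double after four steps -/
lemma golden_double (m : ℕ) : 2 * floorPow sqrtGolden m ≤ floorPow sqrtGolden (m + 4) := by
  unfold floorPow
  have h1 : sqrtGolden ^ (m + 4) = sqrtGolden ^ m * Real.goldenRatio ^ 2 := by
    rw [pow_add, show sqrtGolden ^ 4 = (sqrtGolden ^ 2) ^ 2 by ring, sqrtGolden_sq]
  rw [Nat.le_floor_iff (by positivity [one_lt_sqrtGolden])]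
  push_cast
  have h2 : ((⌊sqrtGolden ^ m⌋₊ : ℕ) : ℝ) ≤ sqrtGolden ^ m :=
    Nat.floor_le (pow_nonneg (by linarith [one_lt_sqrtGolden]) m)
  rw [h1, Real.goldenRatio_sq]
  have h3 := Real.one_lt_goldenRatio
  have h4 : 0 ≤ sqrtGolden ^ m := pow_nonneg (by linarith [one_lt_sqrtGolden]) m
  nlinarith

lemma sqrtGolden_integral : IsIntegral ℤ sqrtGolden := by
  refine ⟨Polynomial.X ^ 4 - Polynomial.X ^ 2 - 1, ?_, ?_⟩
  · monicity!
  · have h : sqrtGolden ^ 4 = sqrtGolden ^ 2 + 1 := by
      rw [show sqrtGolden ^ 4 = (sqrtGolden ^ 2) ^ 2 by ring, sqrtGolden_sq, Real.goldenRatio_sq]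
    simp [h]

/-- evaluation of rational polynomials at `± √φ` -/
lemma eval_split (p : Polynomial ℚ) : ∃ a b c d : ℚ,
    Polynomial.aeval sqrtGolden p =
      ((a : ℝ) + b * Real.goldenRatio) + ((c : ℝ) + d * Real.goldenRatio) * sqrtGolden ∧
    Polynomial.aeval (-sqrtGolden) p =
      ((a : ℝ) + b * Real.goldenRatio) - ((c : ℝ) + d * Real.goldenRatio) * sqrtGolden := by
  induction p using Polynomial.induction_on' with
  | add p q hp hq =>
    obtain ⟨a, b, c, d, h1, h2⟩ := hp
    obtain ⟨a', b', c', d', h1', h2'⟩ := hq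
    refine ⟨a + a', b + b', c + c', d + d', ?_, ?_⟩
    · rw [map_add, h1, h1']; push_cast; ring
    · rw [map_add, h2, h2']; push_cast; ring
  | monomial n r =>
    have key : ∀ n : ℕ, ∃ a b c d : ℚ,
        sqrtGolden ^ n =
          ((a : ℝ) + b * Real.goldenRatio) + ((c : ℝ) + d * Real.goldenRatio) * sqrtGolden ∧
        (-sqrtGolden) ^ n =
          ((a : ℝ) + b * Real.goldenRatio) - ((c : ℝ) + d * Real.goldenRatio) * sqrtGolden := by
      intro n
      induction n with
      | zero => exact ⟨1, 0, 0, 0, by simp, by simp⟩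
      | succ n ih =>
        obtain ⟨a, b, c, d, h1, h2⟩ := ih
        -- multiply by `s = √φ`: (A + B s) s = B φ + A s
        refine ⟨d, c + d, a, b, ?_, ?_⟩
        · rw [pow_succ, h1]
          have hs : sqrtGolden * sqrtGolden = Real.goldenRatio := by rw [← sq]; exact sqrtGolden_sq
          have hg : Real.goldenRatio * Real.goldenRatio = Real.goldenRatio + 1 := by
            rw [← sq]; exact Real.goldenRatio_sq
          push_cast
          linear_combination ((c : ℝ) + d * Real.goldenRatio) * hs + (d : ℝ) * hg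
        · rw [pow_succ, h2]
          have hs : sqrtGolden * sqrtGolden = Real.goldenRatio := by rw [← sq]; exact sqrtGolden_sq
          have hg : Real.goldenRatio * Real.goldenRatio = Real.goldenRatio + 1 := by
            rw [← sq]; exact Real.goldenRatio_sq
          push_cast
          linear_combination ((c : ℝ) + d * Real.goldenRatio) * hs + (d : ℝ) * hg
    obtain ⟨a, b, c, d, h1, h2⟩ := key n
    refine ⟨r * a, r * b, r * c, r * d, ?_, ?_⟩
    · rw [Polynomial.aeval_monomial, h1]
      simp only [eq_ratCast]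
      push_cast; ring
    · rw [Polynomial.aeval_monomial, h2]
      simp only [eq_ratCast]
      push_cast; ring

/-- `√φ` is not of the form `r + s φ` with rational `r, s` -/
lemma sqrtGolden_not_quadratic (r s : ℚ) : sqrtGolden ≠ (r : ℝ) + s * Real.goldenRatio := by
  intro h
  have h2 : Real.goldenRatio = ((r : ℝ) + s * Real.goldenRatio) ^ 2 := by
    rw [← h, sqrtGolden_sq]
  have hg := Real.goldenRatio_sq
  have hc := Real.goldenConj_sq
  have h3 : ((2 * r * s + s ^ 2 - 1 : ℚ) : ℝ) * Real.goldenRatio + ((r ^ 2 + s ^ 2 : ℚ) : ℝ) = 0 := by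
    push_cast
    linear_combination (-1 : ℝ) * h2 - (s : ℝ) ^ 2 * hg
  -- irrationality of φ forces both coefficients to vanish
  have hirr := Real.goldenRatio_irrational
  have h4 : (2 * r * s + s ^ 2 - 1 : ℚ) = 0 := by
    by_contra hne
    apply hirr
    refine ⟨-(r ^ 2 + s ^ 2) / (2 * r * s + s ^ 2 - 1), ?_⟩
    have hne' : ((2 * r * s + s ^ 2 - 1 : ℚ) : ℝ) ≠ 0 := by exact_mod_cast hne
    push_cast at hne' h3 ⊢
    rw [div_eq_iff hne']
    linarith
  have h5 : (r ^ 2 + s ^ 2 : ℚ) = 0 := by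
    rw [h4] at h3
    simp only [Rat.cast_zero, zero_mul, zero_add] at h3
    exact_mod_cast h3
  have hr : r = 0 := by nlinarith [sq_nonneg r, sq_nonneg s]
  have hs : s = 0 := by nlinarith [sq_nonneg r, sq_nonneg s]
  rw [hr, hs] at h4
  norm_num at h4

lemma quad_div (a b c d g : ℝ) (hg : g ^ 2 = g + 1) (hne : c + d * g ≠ 0)
    (hN : c ^ 2 + c * d - d ^ 2 ≠ 0) :
    -(a + b * g) / (c + d * g) = -(a * (c + d) - b * d) / (c ^ 2 + c * d - d ^ 2) +
      -(b * c - a * d) / (c ^ 2 + c * d - d ^ 2) * g := by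
  have h1 : -(a * (c + d) - b * d) / (c ^ 2 + c * d - d ^ 2) +
      -(b * c - a * d) / (c ^ 2 + c * d - d ^ 2) * g =
      (-(a * (c + d) - b * d) + -(b * c - a * d) * g) / (c ^ 2 + c * d - d ^ 2) := by ring
  rw [h1, div_eq_div_iff hne hN]
  linear_combination ((b * c - a * d) * d) * hg

lemma sqrtGolden_not_perron : ¬ IsPerron sqrtGolden := by
  rintro ⟨-, -, h⟩
  -- `-√φ` is a conjugate
  obtain ⟨a, b, c, d, h1, h2⟩ := eval_split (minpoly ℚ sqrtGolden)
  rw [minpoly.aeval] at h1
  have hcd : (c : ℝ) + d * Real.goldenRatio = 0 := by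
    by_contra hne
    -- then √φ = -(a+bφ)/(c+dφ) lies in ℚ(φ)
    have hnorm : (c : ℝ) ^ 2 + c * d - d ^ 2 ≠ 0 := by
      intro hz
      -- (c + dφ)(c + dψ) = c² + cd - d²
      have hprod : ((c : ℝ) + d * Real.goldenRatio) * ((c : ℝ) + d * Real.goldenConj) = 0 := by
        have e1 := Real.goldenRatio_mul_goldenConj
        have e2 := Real.goldenRatio_add_goldenConj
        linear_combination hz + (c : ℝ) * d * e2 + (d : ℝ) ^ 2 * e1
      rcases mul_eq_zero.mp hprod with h3 | h3
      · exact hne h3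
      · by_cases hd : d = 0
        · rw [hd] at h3 hne
          simp only [Rat.cast_zero, zero_mul, add_zero] at h3 hne
          exact hne h3
        · apply Real.goldenConj_irrational
          refine ⟨-c / d, ?_⟩
          have hd' : (d : ℝ) ≠ 0 := by exact_mod_cast hd
          push_cast
          rw [div_eq_iff hd']
          linarith
    have hq : (c ^ 2 + c * d - d ^ 2 : ℚ) ≠ 0 := by
      intro hz; apply hnorm; exact_mod_cast hz
    apply sqrtGolden_not_quadratic (-(a * (c + d) - b * d) / (c ^ 2 + c * d - d ^ 2))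
      (-(b * c - a * d) / (c ^ 2 + c * d - d ^ 2))
    have hs : sqrtGolden = -(a + b * Real.goldenRatio) / ((c : ℝ) + d * Real.goldenRatio) := by
      rw [eq_div_iff hne]; linarith
    rw [hs]
    push_cast
    exact quad_div a b c d _ Real.goldenRatio_sq hne hnorm
  have hab : (a : ℝ) + b * Real.goldenRatio = 0 := by
    rw [hcd] at h1; linarith
  have hroot : Polynomial.aeval (-sqrtGolden) (minpoly ℚ sqrtGolden) = 0 := by
    rw [h2, hab, hcd]; ring
  have hrootC : Polynomial.aeval ((-sqrtGolden : ℝ) : ℂ) (minpoly ℚ sqrtGolden) = 0 := by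
    have := Polynomial.aeval_algebraMap_apply ℂ (-sqrtGolden) (minpoly ℚ sqrtGolden)
    rw [hroot] at this
    simpa using this
  have hne : ((-sqrtGolden : ℝ) : ℂ) ≠ (sqrtGolden : ℂ) := by
    intro he
    have : -sqrtGolden = sqrtGolden := by exact_mod_cast he
    linarith [one_lt_sqrtGolden]
  have := h _ hrootC hne
  rw [Complex.norm_real, Real.norm_eq_abs, abs_neg, abs_of_pos (by linarith [one_lt_sqrtGolden])]
    at this
  exact lt_irrefl _ this

end Pool.Agent.Lib.MP_e4803a
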