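import Pool.Agent.Lib.MP_e4803a.Defs

/-!
Counting facts for the sequence `⌊η^k⌋`, `η > 1`.
-/

namespace Pool.Agent.Lib.MP_e4803a

/-- signed values of `a_1, …, a_n` -/
noncomputable def sx (η : ℝ) (n : ℕ) (p : Fin n × Bool) : ℤ :=
  if p.2 then (floorPow η (p.1 + 1) : ℤ) else -(floorPow η (p.1 + 1) : ℤ)

section
variable {η : ℝ} (hη : 1 < η)
include hη

lemma fp_le (k : ℕ) : (floorPow η k : ℝ) ≤ η ^ k :=
  Nat.floor_le (by positivity)

lemma fp_lt (k : ℕ) : η ^ k < (floorPow η k : ℝ) + 1 := Nat.lt_floor_add_one _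

lemma fp_pos (k : ℕ) : 1 ≤ floorPow η k := by
  unfold floorPow
  rw [Nat.le_floor_iff (by positivity)]
  simpa using one_le_pow₀ hη.le

lemma fp_mono : Monotone (floorPow η) := by
  intro a b hab
  exact Nat.floor_mono (pow_le_pow_right₀ hη.le hab)

/-- few powers of `η` lie in an interval `[X, M X]` -/
lemma count_interval (M : ℝ) : ∃ K : ℕ, ∀ (X : ℝ), 0 < X → ∀ (n : ℕ) (P : Fin n → Prop)
    [DecidablePred P], (∀ k : Fin n, P k → X ≤ η ^ ((k : ℕ) + 1) ∧ η ^ ((k : ℕ) + 1) ≤ M * X) →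
      (∑ k : Fin n, if P k then (1 : ℤ) else 0) ≤ K := by
  obtain ⟨K, hK⟩ := pow_unbounded_of_one_lt M hη
  refine ⟨K, ?_⟩
  intro X hX n P _ hP
  have h1 : (∑ k : Fin n, if P k then (1 : ℤ) else 0) =
      ((Finset.univ.filter P).card : ℤ) := by
    rw [Finset.card_filter]; push_cast; rfl
  rw [h1]
  by_cases hne : (Finset.univ.filter P).Nonempty
  · set k0 := (Finset.univ.filter P).min' hne with hk0
    have hk0mem : P k0 := by
      have := Finset.min'_mem _ hne
      simpa using (Finset.mem_filter.mp this).2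
    have hsub : ((Finset.univ.filter P).image (fun k : Fin n => (k : ℕ))) ⊆
        Finset.Ico (k0 : ℕ) (k0 + K) := by
      intro j hj
      rw [Finset.mem_image] at hj
      obtain ⟨k, hk, rfl⟩ := hj
      have hkP := (Finset.mem_filter.mp hk).2
      rw [Finset.mem_Ico]
      refine ⟨Fin.le_def.mp (Finset.min'_le _ _ hk), ?_⟩
      by_contra hcon
      push Not at hcon
      have e1 : η ^ ((k0 : ℕ) + 1) * η ^ K ≤ η ^ ((k : ℕ) + 1) := by
        rw [← pow_add]
        exact pow_le_pow_right₀ hη.le (by omega)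
      have e2 := (hP k hkP).2
      have e3 := (hP k0 hk0mem).1
      have e4 : M * X < X * η ^ K := by nlinarith
      have e5 : X * η ^ K ≤ η ^ ((k0 : ℕ) + 1) * η ^ K :=
        mul_le_mul_of_nonneg_right e3 (by positivity)
      linarith
    have hcard := Finset.card_le_card hsub
    rw [Finset.card_image_of_injective _ Fin.val_injective, Nat.card_Ico] at hcard
    have : (Finset.univ.filter P).card ≤ K := by omega
    exact_mod_cast this
  · rw [Finset.not_nonempty_iff_eq_empty] at hne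
    rw [hne]; simp

lemma sx_natAbs (n : ℕ) (p : Fin n × Bool) : (sx η n p).natAbs = floorPow η (p.1 + 1) := by
  unfold sx; split_ifs <;> simp

lemma sx_ne (n : ℕ) (p : Fin n × Bool) : sx η n p ≠ 0 := by
  intro h
  have h1 := sx_natAbs hη n p
  rw [h] at h1
  have := fp_pos hη (p.1 + 1)
  simp at h1
  omega

/-- sums over signed indices of a condition depending only on the index -/
lemma sum_sx (n : ℕ) (P : Fin n → Prop) [DecidablePred P] :
    (∑ p : Fin n × Bool, if P p.1 then (1 : ℤ) else 0) = 2 * ∑ k : Fin n, if P k then (1 : ℤ) else 0 := by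
  rw [Fintype.sum_prod_type, Finset.mul_sum]
  refine Finset.sum_congr rfl fun k _ => ?_
  rw [Fintype.sum_bool]
  ring

lemma hB_holds : ∃ C : ℤ, 1 ≤ C ∧ ∀ (n m : ℕ),
    (∑ p : Fin n × Bool, if (sx η n p).natAbs = m then (1 : ℤ) else 0) ≤ C := by
  obtain ⟨K, hK⟩ := count_interval hη 2
  refine ⟨2 * K + 1, by omega, ?_⟩
  intro n m
  have h1 : (∑ p : Fin n × Bool, if (sx η n p).natAbs = m then (1 : ℤ) else 0) =
      ∑ p : Fin n × Bool, if floorPow η (p.1 + 1) = m then (1 : ℤ) else 0 := by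
    refine Finset.sum_congr rfl fun p _ => ?_
    rw [sx_natAbs hη]
  rw [h1, sum_sx hη n (fun k => floorPow η (k + 1) = m)]
  rcases Nat.eq_zero_or_pos m with rfl | hm
  · have : (∑ k : Fin n, if floorPow η (k + 1) = 0 then (1 : ℤ) else 0) = 0 := by
      refine Finset.sum_eq_zero fun k _ => ?_
      rw [if_neg]
      have := fp_pos hη (k + 1)
      omega
    rw [this]; positivity
  · have := hK m (by exact_mod_cast hm) n (fun k => floorPow η (k + 1) = m) (by
      intro k hk
      have e1 := fp_le hη (k + 1)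
      have e2 := fp_lt hη (k + 1)
      rw [hk] at e1 e2
      refine ⟨e1, ?_⟩
      have : (1 : ℝ) ≤ m := by exact_mod_cast hm
      linarith)
    linarith

lemma hD_holds : ∃ C : ℤ, 1 ≤ C ∧ ∀ (n : ℕ) (t : Fin n × Bool),
    (∑ p : Fin n × Bool, if ((sx η n p).natAbs ≤ (sx η n t).natAbs ∧
      (sx η n t).natAbs ≤ 3 * (sx η n p).natAbs) then (1 : ℤ) else 0) ≤ C := by
  obtain ⟨K, hK⟩ := count_interval hη 6
  refine ⟨2 * K + 1, by omega, ?_⟩
  intro n t
  have h1 : (∑ p : Fin n × Bool, if ((sx η n p).natAbs ≤ (sx η n t).natAbs ∧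
      (sx η n t).natAbs ≤ 3 * (sx η n p).natAbs) then (1 : ℤ) else 0) =
      ∑ p : Fin n × Bool, if (floorPow η (p.1 + 1) ≤ floorPow η (t.1 + 1) ∧
        floorPow η (t.1 + 1) ≤ 3 * floorPow η (p.1 + 1)) then (1 : ℤ) else 0 := by
    refine Finset.sum_congr rfl fun p _ => ?_
    rw [sx_natAbs hη, sx_natAbs hη]
  rw [h1, sum_sx hη n (fun k => floorPow η (k + 1) ≤ floorPow η (t.1 + 1) ∧
        floorPow η (t.1 + 1) ≤ 3 * floorPow η (k + 1))]
  have ht : (1 : ℝ) ≤ (floorPow η (t.1 + 1) : ℝ) := by exact_mod_cast fp_pos hη (t.1 + 1)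
  have := hK ((floorPow η (t.1 + 1) : ℝ) / 3) (by positivity) n
    (fun k => floorPow η (k + 1) ≤ floorPow η (t.1 + 1) ∧
        floorPow η (t.1 + 1) ≤ 3 * floorPow η (k + 1)) (by
      intro k hk
      have e1 := fp_le hη (k + 1)
      have e2 := fp_lt hη (k + 1)
      have q1 : (floorPow η (k + 1) : ℝ) ≤ floorPow η (t.1 + 1) := by exact_mod_cast hk.1
      have q2 : (floorPow η (t.1 + 1) : ℝ) ≤ 3 * floorPow η (k + 1) := by exact_mod_cast hk.2
      constructor
      · linarith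
      · linarith)
  linarith

lemma hA_holds : ∃ C : ℤ, 1 ≤ C ∧ ∀ (n : ℕ) (N : ℤ), N ≠ 0 →
    (∑ s : Fin n × Bool, ∑ t : Fin n × Bool, if sx η n s + sx η n t = N then (1 : ℤ) else 0) ≤ C := by
  obtain ⟨C1, hC1, hB⟩ := hB_holds hη
  set c : ℝ := 2 * η / (η - 1) with hc
  have hη1 : 0 < η - 1 := by linarith
  have hcpos : 2 ≤ c := by
    rw [hc, le_div_iff₀ hη1]; linarith
  obtain ⟨K, hK⟩ := count_interval hη (2 * c)
  have hK0 : 0 ≤ 2 * (2 * (K : ℤ)) * C1 := mul_nonneg (by positivity) (by linarith)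
  refine ⟨2 * (2 * K) * C1 + 1, by linarith, ?_⟩
  intro n N hN
  have hNpos : (1 : ℝ) ≤ (N.natAbs : ℝ) := by
    have : 1 ≤ N.natAbs := Nat.one_le_iff_ne_zero.mpr (Int.natAbs_ne_zero.mpr hN)
    exact_mod_cast this
  -- the dominant element is confined
  have hdom : ∀ s t : Fin n × Bool, (sx η n t).natAbs ≤ (sx η n s).natAbs →
      sx η n s + sx η n t = N →
      (N.natAbs : ℝ) / 2 ≤ η ^ ((s.1 : ℕ) + 1) ∧ η ^ ((s.1 : ℕ) + 1) ≤ 2 * c * ((N.natAbs : ℝ) / 2) := by
    intro s t hst hsum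
    have e1 := fp_le hη (s.1 + 1)
    have e2 := fp_lt hη (s.1 + 1)
    have e3 : (1 : ℝ) ≤ floorPow η (s.1 + 1) := by exact_mod_cast fp_pos hη (s.1 + 1)
    have ns := sx_natAbs hη n s
    have nt := sx_natAbs hη n t
    have hN2 : N.natAbs ≤ 2 * floorPow η (s.1 + 1) := by omega
    have hN2' : (N.natAbs : ℝ) ≤ 2 * floorPow η (s.1 + 1) := by exact_mod_cast hN2
    refine ⟨by linarith, ?_⟩
    have hcases : floorPow η (s.1 + 1) ≤ N.natAbs ∨
        (floorPow η (t.1 + 1) < floorPow η (s.1 + 1) ∧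
          N.natAbs = floorPow η (s.1 + 1) - floorPow η (t.1 + 1)) := by omega
    rcases hcases with h | ⟨h1, h2⟩
    · have h' : (floorPow η (s.1 + 1) : ℝ) ≤ N.natAbs := by exact_mod_cast h
      nlinarith
    · have hkl : (t.1 : ℕ) + 1 < (s.1 : ℕ) + 1 := by
        by_contra hcon
        push Not at hcon
        have := fp_mono hη hcon
        omega
      have e5 := fp_le hη (t.1 + 1)
      have e6 : η ^ ((t.1 : ℕ) + 1) * η ≤ η ^ ((s.1 : ℕ) + 1) := by
        rw [← pow_succ]
        exact pow_le_pow_right₀ hη.le hkl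
      have h2' : (N.natAbs : ℝ) = (floorPow η (s.1 + 1) : ℝ) - floorPow η (t.1 + 1) := by
        rw [h2, Nat.cast_sub h1.le]
      have e7 : η ^ ((t.1 : ℕ) + 1) ≤ η ^ ((s.1 : ℕ) + 1) / η := by
        rw [le_div_iff₀ (by linarith)]; exact e6
      have e8 : η ^ ((s.1 : ℕ) + 1) - η ^ ((s.1 : ℕ) + 1) / η ≤ (N.natAbs : ℝ) + 1 := by linarith
      have e9 : η ^ ((s.1 : ℕ) + 1) * (η - 1) ≤ ((N.natAbs : ℝ) + 1) * η := by
        have hηpos : 0 < η := by linarith
        have : (η ^ ((s.1 : ℕ) + 1) - η ^ ((s.1 : ℕ) + 1) / η) * η ≤ ((N.natAbs : ℝ) + 1) * η :=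
          mul_le_mul_of_nonneg_right e8 hηpos.le
        have h3 : (η ^ ((s.1 : ℕ) + 1) - η ^ ((s.1 : ℕ) + 1) / η) * η =
            η ^ ((s.1 : ℕ) + 1) * (η - 1) := by field_simp
        linarith
      have e10 : η ^ ((s.1 : ℕ) + 1) ≤ c * (N.natAbs : ℝ) := by
        rw [hc, div_mul_eq_mul_div, le_div_iff₀ hη1]
        nlinarith
      linarith
  have hhalf : (∑ s : Fin n × Bool, ∑ t : Fin n × Bool,
      if ((sx η n t).natAbs ≤ (sx η n s).natAbs ∧ sx η n s + sx η n t = N) then (1 : ℤ) else 0) ≤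
        2 * K * C1 := by
    classical
    set P : Fin n → Prop := fun k => (N.natAbs : ℝ) / 2 ≤ η ^ ((k : ℕ) + 1) ∧
      η ^ ((k : ℕ) + 1) ≤ 2 * c * ((N.natAbs : ℝ) / 2) with hP
    have h1 : ∀ s : Fin n × Bool, (∑ t : Fin n × Bool,
        if ((sx η n t).natAbs ≤ (sx η n s).natAbs ∧ sx η n s + sx η n t = N) then (1 : ℤ) else 0) ≤
        (if P s.1 then (1 : ℤ) else 0) * C1 := by
      intro s
      by_cases hPs : P s.1
      · rw [if_pos hPs, one_mul]
        refine le_trans (Finset.sum_le_sum fun t _ => ?_) (hB n (N - sx η n s).natAbs)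
        by_cases h : ((sx η n t).natAbs ≤ (sx η n s).natAbs ∧ sx η n s + sx η n t = N)
        · rw [if_pos h, if_pos]
          have : sx η n t = N - sx η n s := by linarith [h.2]
          rw [this]
        · rw [if_neg h]; split_ifs <;> norm_num
      · rw [if_neg hPs, zero_mul]
        refine le_of_eq (Finset.sum_eq_zero fun t _ => ?_)
        rw [if_neg]
        rintro ⟨q1, q2⟩
        exact hPs (hdom s t q1 q2)
    refine le_trans (Finset.sum_le_sum fun s _ => h1 s) ?_
    rw [← Finset.sum_mul, sum_sx hη n P]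
    have := hK ((N.natAbs : ℝ) / 2) (by positivity) n P (fun k hk => hk)
    have hC1' : 0 ≤ C1 := by linarith
    nlinarith
  have hsym : (∑ s : Fin n × Bool, ∑ t : Fin n × Bool,
      if ((sx η n s).natAbs ≤ (sx η n t).natAbs ∧ sx η n s + sx η n t = N) then (1 : ℤ) else 0) ≤
        2 * K * C1 := by
    rw [Finset.sum_comm]
    refine le_trans (le_of_eq ?_) hhalf
    refine Finset.sum_congr rfl fun s _ => Finset.sum_congr rfl fun t _ => ?_
    rw [add_comm]
  calc _ ≤ ∑ s : Fin n × Bool, ∑ t : Fin n × Bool,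
        ((if ((sx η n t).natAbs ≤ (sx η n s).natAbs ∧ sx η n s + sx η n t = N) then (1 : ℤ) else 0) +
        (if ((sx η n s).natAbs ≤ (sx η n t).natAbs ∧ sx η n s + sx η n t = N) then (1 : ℤ) else 0)) := by
        refine Finset.sum_le_sum fun s _ => Finset.sum_le_sum fun t _ => ?_
        by_cases h : sx η n s + sx η n t = N
        · rw [if_pos h]
          rcases le_total (sx η n t).natAbs (sx η n s).natAbs with q | q
          · rw [if_pos ⟨q, h⟩]
            have : (0 : ℤ) ≤ (if ((sx η n s).natAbs ≤ (sx η n t).natAbs ∧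
              sx η n s + sx η n t = N) then (1 : ℤ) else 0) := by split_ifs <;> norm_num
            linarith
          · have hq : ((sx η n s).natAbs ≤ (sx η n t).natAbs ∧ sx η n s + sx η n t = N) := ⟨q, h⟩
            rw [if_pos hq]
            have : (0 : ℤ) ≤ (if ((sx η n t).natAbs ≤ (sx η n s).natAbs ∧
              sx η n s + sx η n t = N) then (1 : ℤ) else 0) := by split_ifs <;> norm_num
            linarith
        · rw [if_neg h, if_neg (fun hh => h hh.2), if_neg (fun hh => h hh.2)]; norm_num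
    _ ≤ 2 * (2 * K) * C1 + 1 := by
        simp only [Finset.sum_add_distrib]
        linarith

end

end Pool.Agent.Lib.MP_e4803a
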