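import Pool.Agent.Lib.MP_e4803a.Bound
import Pool.Agent.Lib.MP_e4803a.Lacunary
import Pool.Agent.Lib.MP_e4803a.Golden
import Pool.Agent.Lib.MP_e4803a.Cumulant

/-!
For `η = √φ` the sixth cumulant of `S_n` grows faster than linearly.
-/

namespace Pool.Agent.Lib.MP_e4803a

open Filter Topology

lemma cosSum_continuous (η : ℝ) (n : ℕ) : Continuous (cosSum η n) := by
  unfold cosSum; fun_prop

lemma sum_Icc_fin (n : ℕ) (f : ℕ → ℂ) :
    ∑ k ∈ Finset.Icc 1 n, f k = ∑ k : Fin n, f ((k : ℕ) + 1) := by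
  rw [Fin.sum_univ_eq_sum_range (fun k => f (k + 1)) n]
  induction n with
  | zero => simp
  | succ n ih => rw [Finset.sum_Icc_succ_top (by omega), Finset.sum_range_succ, ih]

lemma two_cosSum (η : ℝ) (n : ℕ) (ω : ℝ) :
    ((2 * cosSum η n ω : ℝ) : ℂ) =
      ∑ p : Fin n × Bool, Complex.exp (2 * Real.pi * Complex.I * (sx η n p : ℤ) * ω) := by
  unfold cosSum
  push_cast
  rw [sum_Icc_fin n (fun k => Complex.cos (2 * Real.pi * (floorPow η k : ℂ) * ω)), Finset.mul_sum,
    Fintype.sum_prod_type]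
  refine Finset.sum_congr rfl fun k _ => ?_
  rw [Fintype.sum_bool]
  simp only [sx, if_true, Complex.cos]
  push_cast
  have e1 : (2 * Real.pi * Complex.I * (floorPow η ((k : ℕ) + 1) : ℂ) * ω : ℂ) =
      2 * Real.pi * (floorPow η ((k : ℕ) + 1) : ℂ) * ω * Complex.I := by ring
  have e2 : (2 * Real.pi * Complex.I * (-(floorPow η ((k : ℕ) + 1) : ℂ)) * ω : ℂ) =
      -(2 * Real.pi * (floorPow η ((k : ℕ) + 1) : ℂ) * ω) * Complex.I := by ring
  rw [e1, e2]
  ring

lemma NN_one {η : ℝ} (hη : 1 < η) (n : ℕ) : NN (sx η n) 1 = 0 := by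
  unfold NN
  refine Finset.sum_eq_zero fun τ _ => ?_
  rw [if_neg]
  simp only [Fin.sum_univ_succ, Fin.sum_univ_zero, add_zero]
  exact sx_ne hη n _

/-- The sixth cumulant as a combination of numbers of zero-sum tuples. -/
lemma cumulant_six_cosSum {η : ℝ} (hη : 1 < η) (n : ℕ) :
    64 * cumulant 6 (cosSum η n) =
      ((NN (sx η n) 6 - 15 * NN (sx η n) 4 * NN (sx η n) 2 - 10 * (NN (sx η n) 3) ^ 2
        + 30 * (NN (sx η n) 2) ^ 3 : ℤ) : ℝ) := by
  have hm := fun m => moment_eq (sx η n) (cosSum η n) (fun ω => two_cosSum η n ω) m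
  have h1 : ∫ ω in (0 : ℝ)..1, cosSum η n ω = 0 := by
    have := hm 1
    simpa [NN_one hη] using this
  rw [cumulant_six (cosSum_continuous η n) h1, hm 6, hm 4, hm 3, hm 2]
  push_cast
  ring

/-- an index below `n` -/
def idx {n : ℕ} (hn : 0 < n) (j : ℕ) : Fin n := ⟨j % n, Nat.mod_lt _ hn⟩

lemma idx_val {n : ℕ} (hn : 0 < n) {j : ℕ} (hj : j < n) : ((idx hn j : Fin n) : ℕ) = j :=
  Nat.mod_eq_of_lt hj

/-- the linking tuples `a_{k+4} - a_{k+2} - a_k - a_{l+4} + a_{l+2} + a_l = 0` -/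
def linkTuple {n : ℕ} (hn : 0 < n) (i j : ℕ) : Fin 6 → Fin n × Bool :=
  ![(idx hn (4 * i + 5), true), (idx hn (4 * i + 3), false), (idx hn (4 * i + 1), false),
    (idx hn (4 * j + 5), false), (idx hn (4 * j + 3), true), (idx hn (4 * j + 1), true)]

lemma golden_gap {i j : ℕ} (hij : i + 3 ≤ j) :
    2 * floorPow sqrtGolden (4 * i + 6) < floorPow sqrtGolden (4 * j + 2) := by
  have h1 := golden_double (4 * i + 6)
  have h2 := golden_double (4 * i + 10)
  have h3 : floorPow sqrtGolden (4 * i + 14) ≤ floorPow sqrtGolden (4 * j + 2) :=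
    fp_mono one_lt_sqrtGolden (by omega)
  have h4 := fp_pos one_lt_sqrtGolden (4 * i + 6)
  have e1 : 4 * i + 6 + 4 = 4 * i + 10 := by ring
  have e2 : 4 * i + 10 + 4 = 4 * i + 14 := by ring
  rw [e1] at h1
  rw [e2] at h2
  omega

lemma linkTuple_Wt {n : ℕ} (hn : 0 < n) {i j : ℕ} (hij : i + 3 ≤ j) (hj : 4 * j + 6 ≤ n) :
    Wt (fun q => sx sqrtGolden n (linkTuple hn i j q)) = 1 := by
  set u3 := floorPow sqrtGolden (4 * i + 2) with hu3
  set u2 := floorPow sqrtGolden (4 * i + 4) with hu2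
  set u1 := floorPow sqrtGolden (4 * i + 6) with hu1
  set v3 := floorPow sqrtGolden (4 * j + 2) with hv3
  set v2 := floorPow sqrtGolden (4 * j + 4) with hv2
  set v1 := floorPow sqrtGolden (4 * j + 6) with hv1
  have r1 : u1 = u2 + u3 + 1 := golden_relation i
  have r2 : v1 = v2 + v3 + 1 := golden_relation j
  have p3 : 1 ≤ u3 := fp_pos one_lt_sqrtGolden _
  have p2 : u3 ≤ u2 := fp_mono one_lt_sqrtGolden (by omega)
  have q2 : v3 ≤ v2 := fp_mono one_lt_sqrtGolden (by omega)
  have g : 2 * u1 < v3 := golden_gap hij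
  have y0 : sx sqrtGolden n (linkTuple hn i j 0) = (u1 : ℤ) := by
    show sx sqrtGolden n (idx hn (4 * i + 5), true) = _
    simp only [sx, if_true, idx_val hn (show 4 * i + 5 < n by omega)]
    rfl
  have y1 : sx sqrtGolden n (linkTuple hn i j 1) = -(u2 : ℤ) := by
    show sx sqrtGolden n (idx hn (4 * i + 3), false) = _
    simp only [sx, idx_val hn (show 4 * i + 3 < n by omega)]
    rfl
  have y2 : sx sqrtGolden n (linkTuple hn i j 2) = -(u3 : ℤ) := by
    show sx sqrtGolden n (idx hn (4 * i + 1), false) = _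
    simp only [sx, idx_val hn (show 4 * i + 1 < n by omega)]
    rfl
  have y3 : sx sqrtGolden n (linkTuple hn i j 3) = -(v1 : ℤ) := by
    show sx sqrtGolden n (idx hn (4 * j + 5), false) = _
    simp only [sx, idx_val hn (show 4 * j + 5 < n by omega)]
    rfl
  have y4 : sx sqrtGolden n (linkTuple hn i j 4) = (v2 : ℤ) := by
    show sx sqrtGolden n (idx hn (4 * j + 3), true) = _
    simp only [sx, if_true, idx_val hn (show 4 * j + 3 < n by omega)]
    rfl
  have y5 : sx sqrtGolden n (linkTuple hn i j 5) = (v3 : ℤ) := by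
    show sx sqrtGolden n (idx hn (4 * j + 1), true) = _
    simp only [sx, if_true, idx_val hn (show 4 * j + 1 < n by omega)]
    rfl
  have hs : sx sqrtGolden n (linkTuple hn i j 0) + sx sqrtGolden n (linkTuple hn i j 1) +
      sx sqrtGolden n (linkTuple hn i j 2) + sx sqrtGolden n (linkTuple hn i j 3) +
      sx sqrtGolden n (linkTuple hn i j 4) + sx sqrtGolden n (linkTuple hn i j 5) = 0 := by
    rw [y0, y1, y2, y3, y4, y5]; omega
  have hw : Wt (fun q => sx sqrtGolden n (linkTuple hn i j q)) =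
      WW (sx sqrtGolden n (linkTuple hn i j 0)) (sx sqrtGolden n (linkTuple hn i j 1))
        (sx sqrtGolden n (linkTuple hn i j 2)) (sx sqrtGolden n (linkTuple hn i j 3))
        (sx sqrtGolden n (linkTuple hn i j 4)) (sx sqrtGolden n (linkTuple hn i j 5)) := by
    unfold Wt
    exact if_pos hs
  rw [hw, y0, y1, y2, y3, y4, y5]
  clear hs hw
  clear y0 y1 y2 y3 y4 y5
  clear_value u1 u2 u3 v1 v2 v3
  apply WW_eq_one <;> omega

lemma linkTuple_inj {n : ℕ} (hn : 0 < n) {i j i' j' : ℕ} (hi : 4 * i + 1 < n) (hj : 4 * j + 1 < n)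
    (hi' : 4 * i' + 1 < n) (hj' : 4 * j' + 1 < n) (h : linkTuple hn i j = linkTuple hn i' j') :
    i = i' ∧ j = j' := by
  have h2 := congrFun h 2
  have h5 := congrFun h 5
  have h2' : idx hn (4 * i + 1) = idx hn (4 * i' + 1) := congrArg Prod.fst h2
  have h5' : idx hn (4 * j + 1) = idx hn (4 * j' + 1) := congrArg Prod.fst h5
  have a := congrArg Fin.val h2'
  have b := congrArg Fin.val h5'
  rw [idx_val hn hi, idx_val hn hi'] at a
  rw [idx_val hn hj, idx_val hn hj'] at b
  omega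

/-- quadratic lower bound up to a linear error -/
theorem cumulant_lower : ∃ C : ℝ, 0 ≤ C ∧ ∀ n : ℕ, 0 < n →
    (((n - 14) / 8 : ℕ) : ℝ) ^ 2 - C * n ≤ 64 * cumulant 6 (cosSum sqrtGolden n) := by
  obtain ⟨CA, hCA, hA⟩ := hA_holds one_lt_sqrtGolden
  obtain ⟨CB, hCB, hB⟩ := hB_holds one_lt_sqrtGolden
  obtain ⟨CD, hCD, hD⟩ := hD_holds one_lt_sqrtGolden
  set C : ℤ := CA + CB + CD with hC
  refine ⟨24 * 720 * 5 * (C : ℝ) ^ 4 * 2, by positivity, ?_⟩
  intro n hn
  set m := (n - 14) / 8 with hm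
  set L : Finset (Fin 6 → Fin n × Bool) :=
    (Finset.range m ×ˢ Finset.range m).image (fun p => linkTuple hn p.1 (m + 3 + p.2)) with hL
  have hcard : L.card = m * m := by
    rw [hL, Finset.card_image_of_injOn, Finset.card_product, Finset.card_range]
    rintro ⟨i, j⟩ hij ⟨i', j'⟩ hij' h
    simp only [Finset.coe_product, Finset.coe_range, Set.mem_prod, Set.mem_Iio] at hij hij'
    have := linkTuple_inj hn (i := i) (j := m + 3 + j) (i' := i') (j' := m + 3 + j')
      (by omega) (by omega) (by omega) (by omega) h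
    ext <;> simp <;> omega
  have hW : ∀ τ ∈ L, Wt (fun q => sx sqrtGolden n (τ q)) = 1 := by
    intro τ hτ
    rw [hL, Finset.mem_image] at hτ
    obtain ⟨⟨i, j⟩, hij, rfl⟩ := hτ
    simp only [Finset.mem_product, Finset.mem_range] at hij
    exact linkTuple_Wt hn (by omega) (by omega)
  have hmain := numerator_lower (sx sqrtGolden n) C (fun t => sx_ne one_lt_sqrtGolden n t)
    (by omega)
    (fun N hN => le_trans (hA n N hN) (by omega))
    (fun k => le_trans (hB n k) (by omega))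
    (fun t => le_trans (hD n t) (by omega)) L hW
  rw [cumulant_six_cosSum one_lt_sqrtGolden n]
  have hcardι : Fintype.card (Fin n × Bool) = n * 2 := by simp
  rw [hcard, hcardι] at hmain
  have hmain' := (Int.cast_le (R := ℝ)).mpr hmain
  refine le_trans (le_of_eq ?_) hmain'
  push_cast
  ring

theorem tendsto_cumulant :
    Tendsto (fun n : ℕ => cumulant 6 (cosSum sqrtGolden n) / (n : ℝ)) atTop atTop := by
  obtain ⟨C, hC, h⟩ := cumulant_lower
  have hlow : Tendsto (fun n : ℕ => ((n : ℝ) / 2048 - C) / 64) atTop atTop := by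
    apply Filter.Tendsto.atTop_div_const (by norm_num)
    apply tendsto_atTop_add_const_right
    apply Filter.Tendsto.atTop_div_const (by norm_num)
    exact tendsto_natCast_atTop_atTop
  refine tendsto_atTop_mono' _ ?_ hlow
  filter_upwards [eventually_ge_atTop 64] with n hn
  have hn0 : 0 < n := by omega
  have hnR : (0 : ℝ) < n := by exact_mod_cast hn0
  have h1 := h n hn0
  rw [le_div_iff₀ hnR]
  have hm : n ≤ 16 * ((n - 14) / 8) := by omega
  have hmR : (n : ℝ) ≤ 16 * (((n - 14) / 8 : ℕ) : ℝ) := by exact_mod_cast hm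
  have h2 : (n : ℝ) * n / 256 ≤ (((n - 14) / 8 : ℕ) : ℝ) ^ 2 := by nlinarith
  have h3 : (n : ℝ) * n / 2048 ≤ (n : ℝ) * n / 256 := by
    have : 0 ≤ (n : ℝ) * n := by positivity
    linarith
  have h4 : ((n : ℝ) / 2048 - C) / 64 * n = ((n : ℝ) * n / 2048 - C * n) / 64 := by ring
  rw [h4]
  linarith

lemma sqrtGolden_algebraic : IsAlgebraic ℚ sqrtGolden :=
  (sqrtGolden_integral.tower_top (A := ℚ)).isAlgebraic

theorem main : 1 < Real.sqrt Real.goldenRatio ∧
    IsAlgebraic ℚ (Real.sqrt Real.goldenRatio) ∧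
    ¬ IsPerron (Real.sqrt Real.goldenRatio) ∧
    Tendsto (fun n : ℕ => cumulant 6 (cosSum (Real.sqrt Real.goldenRatio) n) / (n : ℝ))
      atTop atTop :=
  ⟨one_lt_sqrtGolden, sqrtGolden_algebraic, sqrtGolden_not_perron, tendsto_cumulant⟩

end Pool.Agent.Lib.MP_e4803a
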