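import Mathlib

/-!
Moments of cosine sums as numbers of zero-sum tuples.
-/

namespace Pool.Agent.Lib.MP_e4803a

open MeasureTheory

/-- number of `m`-tuples of indices whose signed values sum to zero -/
def NN {ι : Type*} [Fintype ι] (x : ι → ℤ) (m : ℕ) : ℤ :=
  ∑ τ : Fin m → ι, if ∑ i, x (τ i) = 0 then 1 else 0

lemma integral_char (N : ℤ) :
    (∫ ω in (0 : ℝ)..1, Complex.exp (2 * Real.pi * Complex.I * N * ω)) =
      if N = 0 then 1 else 0 := by
  split_ifs with h
  · simp [h]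
  · have hc : (2 * Real.pi * Complex.I * N : ℂ) ≠ 0 := by
      have : (Real.pi : ℂ) ≠ 0 := by exact_mod_cast Real.pi_ne_zero
      have hN : (N : ℂ) ≠ 0 := by exact_mod_cast h
      simp [this, hN, Complex.I_ne_zero]
    rw [integral_exp_mul_complex hc]
    have h1 : Complex.exp (2 * Real.pi * Complex.I * N * ((1 : ℝ) : ℂ)) = 1 := by
      have := Complex.exp_int_mul_two_pi_mul_I N
      rw [← this]; congr 1; push_cast; ring
    rw [h1]
    simp

lemma moment_eq {ι : Type*} [Fintype ι] (x : ι → ℤ) (F : ℝ → ℝ)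
    (hF : ∀ ω : ℝ, ((2 * F ω : ℝ) : ℂ) = ∑ t, Complex.exp (2 * Real.pi * Complex.I * x t * ω))
    (m : ℕ) :
    (∫ ω in (0 : ℝ)..1, F ω ^ m) = (NN x m : ℝ) / 2 ^ m := by
  have key : (∫ ω in (0 : ℝ)..1, (((2 * F ω) ^ m : ℝ) : ℂ)) = ((NN x m : ℤ) : ℂ) := by
    have h1 : ∀ ω : ℝ, (((2 * F ω) ^ m : ℝ) : ℂ) =
        ∑ τ : Fin m → ι, Complex.exp (2 * Real.pi * Complex.I * ((∑ i, x (τ i) : ℤ) : ℂ) * ω) := by
      intro ω
      rw [Complex.ofReal_pow, hF ω, Fintype.sum_pow]
      refine Finset.sum_congr rfl fun τ _ => ?_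
      rw [← Complex.exp_sum]
      congr 1
      push_cast
      rw [Finset.mul_sum, Finset.sum_mul]
    simp_rw [h1]
    rw [intervalIntegral.integral_finset_sum]
    · simp_rw [integral_char]
      unfold NN
      push_cast
      rfl
    · intro τ _
      apply Continuous.intervalIntegrable
      fun_prop
  rw [intervalIntegral.integral_ofReal] at key
  have key' : (∫ ω in (0 : ℝ)..1, (2 * F ω) ^ m) = (NN x m : ℝ) := by exact_mod_cast key
  have h2 : ∀ ω : ℝ, (2 * F ω) ^ m = 2 ^ m * F ω ^ m := fun ω => by rw [mul_pow]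
  simp_rw [h2] at key'
  rw [intervalIntegral.integral_const_mul] at key'
  field_simp
  linarith

end Pool.Agent.Lib.MP_e4803a
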