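import Pool.Agent.Lib.MP_e4803a.Weight
import Pool.Agent.Lib.MP_e4803a.Moments

/-!
The sixth cumulant numerator as a sum of weights over zero-sum 6-tuples.
-/

namespace Pool.Agent.Lib.MP_e4803a

variable {ι : Type*} [Fintype ι]

/-- sum over all 6-tuples of indices -/
def S6 (x : ι → ℤ) (G : (Fin 6 → ℤ) → ℤ) : ℤ := ∑ τ : Fin 6 → ι, G (fun i => x (τ i))

lemma S6_congr (x : ι → ℤ) {G H : (Fin 6 → ℤ) → ℤ} (h : ∀ y, G y = H y) : S6 x G = S6 x H := by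
  unfold S6; exact Finset.sum_congr rfl fun τ _ => h _

lemma S6_perm (x : ι → ℤ) (f : Fin 6 → Fin 6) (hf : Function.Bijective f)
    (G : (Fin 6 → ℤ) → ℤ) : S6 x (fun y => G (fun i => y (f i))) = S6 x G := by
  unfold S6
  let E : (Fin 6 → ι) ≃ (Fin 6 → ι) := (Equiv.ofBijective f hf).symm.arrowCongr (Equiv.refl ι)
  have hE : ∀ τ : Fin 6 → ι, E τ = fun i => τ (f i) := by
    intro τ; funext i
    simp [E, Equiv.arrowCongr]
  have := Equiv.sum_comp E (fun τ => G (fun i => x (τ i)))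
  rw [← this]
  refine Finset.sum_congr rfl fun τ _ => ?_
  rw [hE]

lemma sum_fun_succ {n : ℕ} (F : (Fin (n + 1) → ι) → ℤ) :
    ∑ τ, F τ = ∑ a, ∑ τ : Fin n → ι, F (Fin.cons a τ) := by
  rw [← Fintype.sum_prod_type']
  exact (Equiv.sum_comp (Fin.consEquiv (fun _ => ι)) F).symm

lemma sum_fun_zero (F : (Fin 0 → ι) → ℤ) (g : Fin 0 → ι) : ∑ τ, F τ = F g := by
  rw [Fintype.sum_unique]
  congr 1
  exact Subsingleton.elim _ _

lemma S6_nested (x : ι → ℤ) (H : ℤ → ℤ → ℤ → ℤ → ℤ → ℤ → ℤ) :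
    S6 x (fun y => H (y 0) (y 1) (y 2) (y 3) (y 4) (y 5)) =
      ∑ a, ∑ b, ∑ c, ∑ d, ∑ f, ∑ g, H (x a) (x b) (x c) (x d) (x f) (x g) := by
  unfold S6
  simp only [sum_fun_succ]
  refine Finset.sum_congr rfl fun a _ => ?_
  refine Finset.sum_congr rfl fun b _ => ?_
  refine Finset.sum_congr rfl fun c _ => ?_
  refine Finset.sum_congr rfl fun d _ => ?_
  refine Finset.sum_congr rfl fun f _ => ?_
  refine Finset.sum_congr rfl fun g _ => ?_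
  rw [sum_fun_zero _ (fun i => i.elim0)]
  rfl

lemma NN2_nested (x : ι → ℤ) : NN x 2 = ∑ a, ∑ b, if x a + x b = 0 then 1 else 0 := by
  unfold NN
  simp only [sum_fun_succ]
  refine Finset.sum_congr rfl fun a _ => ?_
  refine Finset.sum_congr rfl fun b _ => ?_
  rw [sum_fun_zero _ (fun i => i.elim0)]
  simp only [Fin.sum_univ_succ, Fin.sum_univ_zero, add_zero]
  rfl

lemma NN3_nested (x : ι → ℤ) : NN x 3 = ∑ a, ∑ b, ∑ c, if x a + x b + x c = 0 then 1 else 0 := by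
  unfold NN
  simp only [sum_fun_succ]
  refine Finset.sum_congr rfl fun a _ => ?_
  refine Finset.sum_congr rfl fun b _ => ?_
  refine Finset.sum_congr rfl fun c _ => ?_
  rw [sum_fun_zero _ (fun i => i.elim0)]
  simp only [Fin.sum_univ_succ, Fin.sum_univ_zero, add_zero, ← add_assoc]
  rfl

lemma NN4_nested (x : ι → ℤ) :
    NN x 4 = ∑ a, ∑ b, ∑ c, ∑ d, if x a + x b + x c + x d = 0 then 1 else 0 := by
  unfold NN
  simp only [sum_fun_succ]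
  refine Finset.sum_congr rfl fun a _ => ?_
  refine Finset.sum_congr rfl fun b _ => ?_
  refine Finset.sum_congr rfl fun c _ => ?_
  refine Finset.sum_congr rfl fun d _ => ?_
  rw [sum_fun_zero _ (fun i => i.elim0)]
  simp only [Fin.sum_univ_succ, Fin.sum_univ_zero, add_zero, ← add_assoc]
  rfl

lemma NN6_eq (x : ι → ℤ) :
    NN x 6 = S6 x (fun y => if y 0 + y 1 + y 2 + y 3 + y 4 + y 5 = 0 then 1 else 0) := by
  unfold NN S6
  refine Finset.sum_congr rfl fun τ _ => ?_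
  simp only [Fin.sum_univ_succ, Fin.sum_univ_zero, add_zero, ← add_assoc]
  rfl

lemma S6_pair (x : ι → ℤ) :
    S6 x (fun y => if y 0 + y 1 + y 2 + y 3 + y 4 + y 5 = 0 then e (y 0) (y 1) else 0)
      = NN x 4 * NN x 2 := by
  rw [S6_nested x (fun a b c d f g => if a + b + c + d + f + g = 0 then e a b else 0)]
  rw [NN4_nested, NN2_nested, mul_comm, Finset.sum_mul]
  refine Finset.sum_congr rfl fun a _ => ?_
  rw [Finset.sum_mul]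
  refine Finset.sum_congr rfl fun b _ => ?_
  rw [Finset.mul_sum]
  refine Finset.sum_congr rfl fun c _ => ?_
  rw [Finset.mul_sum]
  refine Finset.sum_congr rfl fun d _ => ?_
  rw [Finset.mul_sum]
  refine Finset.sum_congr rfl fun f _ => ?_
  rw [Finset.mul_sum]
  refine Finset.sum_congr rfl fun g _ => ?_
  unfold e
  by_cases h1 : x a + x b = 0
  · rw [h1, zero_add, if_pos rfl]; simp
  · rw [if_neg h1]; simp

lemma S6_triple (x : ι → ℤ) :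
    S6 x (fun y => if y 0 + y 1 + y 2 + y 3 + y 4 + y 5 = 0 then t3 (y 0) (y 1) (y 2) else 0)
      = (NN x 3) ^ 2 := by
  rw [S6_nested x (fun a b c d f g => if a + b + c + d + f + g = 0 then t3 a b c else 0)]
  rw [NN3_nested, sq, Finset.sum_mul]
  refine Finset.sum_congr rfl fun a _ => ?_
  rw [Finset.sum_mul]
  refine Finset.sum_congr rfl fun b _ => ?_
  rw [Finset.sum_mul]
  refine Finset.sum_congr rfl fun c _ => ?_
  rw [Finset.mul_sum]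
  refine Finset.sum_congr rfl fun d _ => ?_
  rw [Finset.mul_sum]
  refine Finset.sum_congr rfl fun f _ => ?_
  rw [Finset.mul_sum]
  refine Finset.sum_congr rfl fun g _ => ?_
  unfold t3
  by_cases h1 : x a + x b + x c = 0
  · rw [h1, zero_add, if_pos rfl]; simp
  · rw [if_neg h1]; simp

lemma S6_match (x : ι → ℤ) :
    S6 x (fun y => if y 0 + y 1 + y 2 + y 3 + y 4 + y 5 = 0 then
      e (y 0) (y 1) * e (y 2) (y 3) * e (y 4) (y 5) else 0) = (NN x 2) ^ 3 := by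
  rw [S6_nested x (fun a b c d f g => if a + b + c + d + f + g = 0 then e a b * e c d * e f g else 0)]
  have hN : (NN x 2) ^ 3 = NN x 2 * (NN x 2 * NN x 2) := by ring
  rw [hN, NN2_nested, Finset.sum_mul]
  refine Finset.sum_congr rfl fun a _ => ?_
  rw [Finset.sum_mul]
  refine Finset.sum_congr rfl fun b _ => ?_
  rw [Finset.sum_mul, Finset.mul_sum]
  refine Finset.sum_congr rfl fun c _ => ?_
  rw [Finset.sum_mul, Finset.mul_sum]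
  refine Finset.sum_congr rfl fun d _ => ?_
  rw [Finset.mul_sum, Finset.mul_sum]
  refine Finset.sum_congr rfl fun f _ => ?_
  rw [Finset.mul_sum, Finset.mul_sum]
  refine Finset.sum_congr rfl fun g _ => ?_
  unfold e
  by_cases h1 : x a + x b = 0
  · by_cases h2 : x c + x d = 0
    · rw [h1, zero_add, h2, zero_add, if_pos rfl]; simp
    · rw [if_neg h2]; simp
  · rw [if_neg h1]; simp

lemma S6_p02 (x : ι → ℤ) : S6 x (fun y => if y 0 + y 1 + y 2 + y 3 + y 4 + y 5 = 0 then e (y 0) (y 2) else 0) = NN x 4 * NN x 2 := by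
  have hp := S6_perm x ![0, 2, 1, 3, 4, 5] (by decide) (fun y => if y 0 + y 1 + y 2 + y 3 + y 4 + y 5 = 0 then e (y 0) (y 1) else 0)
  rw [S6_pair x] at hp
  rw [← hp]
  refine S6_congr x fun y => ?_
  show _ = (if y 0 + y 2 + y 1 + y 3 + y 4 + y 5 = 0 then e (y 0) (y 2) else 0)
  rw [show y 0 + y 2 + y 1 + y 3 + y 4 + y 5 = y 0 + y 1 + y 2 + y 3 + y 4 + y 5 by ring]

lemma S6_p03 (x : ι → ℤ) : S6 x (fun y => if y 0 + y 1 + y 2 + y 3 + y 4 + y 5 = 0 then e (y 0) (y 3) else 0) = NN x 4 * NN x 2 := by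
  have hp := S6_perm x ![0, 3, 1, 2, 4, 5] (by decide) (fun y => if y 0 + y 1 + y 2 + y 3 + y 4 + y 5 = 0 then e (y 0) (y 1) else 0)
  rw [S6_pair x] at hp
  rw [← hp]
  refine S6_congr x fun y => ?_
  show _ = (if y 0 + y 3 + y 1 + y 2 + y 4 + y 5 = 0 then e (y 0) (y 3) else 0)
  rw [show y 0 + y 3 + y 1 + y 2 + y 4 + y 5 = y 0 + y 1 + y 2 + y 3 + y 4 + y 5 by ring]

lemma S6_p04 (x : ι → ℤ) : S6 x (fun y => if y 0 + y 1 + y 2 + y 3 + y 4 + y 5 = 0 then e (y 0) (y 4) else 0) = NN x 4 * NN x 2 := by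
  have hp := S6_perm x ![0, 4, 1, 2, 3, 5] (by decide) (fun y => if y 0 + y 1 + y 2 + y 3 + y 4 + y 5 = 0 then e (y 0) (y 1) else 0)
  rw [S6_pair x] at hp
  rw [← hp]
  refine S6_congr x fun y => ?_
  show _ = (if y 0 + y 4 + y 1 + y 2 + y 3 + y 5 = 0 then e (y 0) (y 4) else 0)
  rw [show y 0 + y 4 + y 1 + y 2 + y 3 + y 5 = y 0 + y 1 + y 2 + y 3 + y 4 + y 5 by ring]

lemma S6_p05 (x : ι → ℤ) : S6 x (fun y => if y 0 + y 1 + y 2 + y 3 + y 4 + y 5 = 0 then e (y 0) (y 5) else 0) = NN x 4 * NN x 2 := by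
  have hp := S6_perm x ![0, 5, 1, 2, 3, 4] (by decide) (fun y => if y 0 + y 1 + y 2 + y 3 + y 4 + y 5 = 0 then e (y 0) (y 1) else 0)
  rw [S6_pair x] at hp
  rw [← hp]
  refine S6_congr x fun y => ?_
  show _ = (if y 0 + y 5 + y 1 + y 2 + y 3 + y 4 = 0 then e (y 0) (y 5) else 0)
  rw [show y 0 + y 5 + y 1 + y 2 + y 3 + y 4 = y 0 + y 1 + y 2 + y 3 + y 4 + y 5 by ring]

lemma S6_p12 (x : ι → ℤ) : S6 x (fun y => if y 0 + y 1 + y 2 + y 3 + y 4 + y 5 = 0 then e (y 1) (y 2) else 0) = NN x 4 * NN x 2 := by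
  have hp := S6_perm x ![1, 2, 0, 3, 4, 5] (by decide) (fun y => if y 0 + y 1 + y 2 + y 3 + y 4 + y 5 = 0 then e (y 0) (y 1) else 0)
  rw [S6_pair x] at hp
  rw [← hp]
  refine S6_congr x fun y => ?_
  show _ = (if y 1 + y 2 + y 0 + y 3 + y 4 + y 5 = 0 then e (y 1) (y 2) else 0)
  rw [show y 1 + y 2 + y 0 + y 3 + y 4 + y 5 = y 0 + y 1 + y 2 + y 3 + y 4 + y 5 by ring]

lemma S6_p13 (x : ι → ℤ) : S6 x (fun y => if y 0 + y 1 + y 2 + y 3 + y 4 + y 5 = 0 then e (y 1) (y 3) else 0) = NN x 4 * NN x 2 := by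
  have hp := S6_perm x ![1, 3, 0, 2, 4, 5] (by decide) (fun y => if y 0 + y 1 + y 2 + y 3 + y 4 + y 5 = 0 then e (y 0) (y 1) else 0)
  rw [S6_pair x] at hp
  rw [← hp]
  refine S6_congr x fun y => ?_
  show _ = (if y 1 + y 3 + y 0 + y 2 + y 4 + y 5 = 0 then e (y 1) (y 3) else 0)
  rw [show y 1 + y 3 + y 0 + y 2 + y 4 + y 5 = y 0 + y 1 + y 2 + y 3 + y 4 + y 5 by ring]

lemma S6_p14 (x : ι → ℤ) : S6 x (fun y => if y 0 + y 1 + y 2 + y 3 + y 4 + y 5 = 0 then e (y 1) (y 4) else 0) = NN x 4 * NN x 2 := by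
  have hp := S6_perm x ![1, 4, 0, 2, 3, 5] (by decide) (fun y => if y 0 + y 1 + y 2 + y 3 + y 4 + y 5 = 0 then e (y 0) (y 1) else 0)
  rw [S6_pair x] at hp
  rw [← hp]
  refine S6_congr x fun y => ?_
  show _ = (if y 1 + y 4 + y 0 + y 2 + y 3 + y 5 = 0 then e (y 1) (y 4) else 0)
  rw [show y 1 + y 4 + y 0 + y 2 + y 3 + y 5 = y 0 + y 1 + y 2 + y 3 + y 4 + y 5 by ring]

lemma S6_p15 (x : ι → ℤ) : S6 x (fun y => if y 0 + y 1 + y 2 + y 3 + y 4 + y 5 = 0 then e (y 1) (y 5) else 0) = NN x 4 * NN x 2 := by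
  have hp := S6_perm x ![1, 5, 0, 2, 3, 4] (by decide) (fun y => if y 0 + y 1 + y 2 + y 3 + y 4 + y 5 = 0 then e (y 0) (y 1) else 0)
  rw [S6_pair x] at hp
  rw [← hp]
  refine S6_congr x fun y => ?_
  show _ = (if y 1 + y 5 + y 0 + y 2 + y 3 + y 4 = 0 then e (y 1) (y 5) else 0)
  rw [show y 1 + y 5 + y 0 + y 2 + y 3 + y 4 = y 0 + y 1 + y 2 + y 3 + y 4 + y 5 by ring]

lemma S6_p23 (x : ι → ℤ) : S6 x (fun y => if y 0 + y 1 + y 2 + y 3 + y 4 + y 5 = 0 then e (y 2) (y 3) else 0) = NN x 4 * NN x 2 := by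
  have hp := S6_perm x ![2, 3, 0, 1, 4, 5] (by decide) (fun y => if y 0 + y 1 + y 2 + y 3 + y 4 + y 5 = 0 then e (y 0) (y 1) else 0)
  rw [S6_pair x] at hp
  rw [← hp]
  refine S6_congr x fun y => ?_
  show _ = (if y 2 + y 3 + y 0 + y 1 + y 4 + y 5 = 0 then e (y 2) (y 3) else 0)
  rw [show y 2 + y 3 + y 0 + y 1 + y 4 + y 5 = y 0 + y 1 + y 2 + y 3 + y 4 + y 5 by ring]

lemma S6_p24 (x : ι → ℤ) : S6 x (fun y => if y 0 + y 1 + y 2 + y 3 + y 4 + y 5 = 0 then e (y 2) (y 4) else 0) = NN x 4 * NN x 2 := by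
  have hp := S6_perm x ![2, 4, 0, 1, 3, 5] (by decide) (fun y => if y 0 + y 1 + y 2 + y 3 + y 4 + y 5 = 0 then e (y 0) (y 1) else 0)
  rw [S6_pair x] at hp
  rw [← hp]
  refine S6_congr x fun y => ?_
  show _ = (if y 2 + y 4 + y 0 + y 1 + y 3 + y 5 = 0 then e (y 2) (y 4) else 0)
  rw [show y 2 + y 4 + y 0 + y 1 + y 3 + y 5 = y 0 + y 1 + y 2 + y 3 + y 4 + y 5 by ring]

lemma S6_p25 (x : ι → ℤ) : S6 x (fun y => if y 0 + y 1 + y 2 + y 3 + y 4 + y 5 = 0 then e (y 2) (y 5) else 0) = NN x 4 * NN x 2 := by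
  have hp := S6_perm x ![2, 5, 0, 1, 3, 4] (by decide) (fun y => if y 0 + y 1 + y 2 + y 3 + y 4 + y 5 = 0 then e (y 0) (y 1) else 0)
  rw [S6_pair x] at hp
  rw [← hp]
  refine S6_congr x fun y => ?_
  show _ = (if y 2 + y 5 + y 0 + y 1 + y 3 + y 4 = 0 then e (y 2) (y 5) else 0)
  rw [show y 2 + y 5 + y 0 + y 1 + y 3 + y 4 = y 0 + y 1 + y 2 + y 3 + y 4 + y 5 by ring]

lemma S6_p34 (x : ι → ℤ) : S6 x (fun y => if y 0 + y 1 + y 2 + y 3 + y 4 + y 5 = 0 then e (y 3) (y 4) else 0) = NN x 4 * NN x 2 := by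
  have hp := S6_perm x ![3, 4, 0, 1, 2, 5] (by decide) (fun y => if y 0 + y 1 + y 2 + y 3 + y 4 + y 5 = 0 then e (y 0) (y 1) else 0)
  rw [S6_pair x] at hp
  rw [← hp]
  refine S6_congr x fun y => ?_
  show _ = (if y 3 + y 4 + y 0 + y 1 + y 2 + y 5 = 0 then e (y 3) (y 4) else 0)
  rw [show y 3 + y 4 + y 0 + y 1 + y 2 + y 5 = y 0 + y 1 + y 2 + y 3 + y 4 + y 5 by ring]

lemma S6_p35 (x : ι → ℤ) : S6 x (fun y => if y 0 + y 1 + y 2 + y 3 + y 4 + y 5 = 0 then e (y 3) (y 5) else 0) = NN x 4 * NN x 2 := by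
  have hp := S6_perm x ![3, 5, 0, 1, 2, 4] (by decide) (fun y => if y 0 + y 1 + y 2 + y 3 + y 4 + y 5 = 0 then e (y 0) (y 1) else 0)
  rw [S6_pair x] at hp
  rw [← hp]
  refine S6_congr x fun y => ?_
  show _ = (if y 3 + y 5 + y 0 + y 1 + y 2 + y 4 = 0 then e (y 3) (y 5) else 0)
  rw [show y 3 + y 5 + y 0 + y 1 + y 2 + y 4 = y 0 + y 1 + y 2 + y 3 + y 4 + y 5 by ring]

lemma S6_p45 (x : ι → ℤ) : S6 x (fun y => if y 0 + y 1 + y 2 + y 3 + y 4 + y 5 = 0 then e (y 4) (y 5) else 0) = NN x 4 * NN x 2 := by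
  have hp := S6_perm x ![4, 5, 0, 1, 2, 3] (by decide) (fun y => if y 0 + y 1 + y 2 + y 3 + y 4 + y 5 = 0 then e (y 0) (y 1) else 0)
  rw [S6_pair x] at hp
  rw [← hp]
  refine S6_congr x fun y => ?_
  show _ = (if y 4 + y 5 + y 0 + y 1 + y 2 + y 3 = 0 then e (y 4) (y 5) else 0)
  rw [show y 4 + y 5 + y 0 + y 1 + y 2 + y 3 = y 0 + y 1 + y 2 + y 3 + y 4 + y 5 by ring]

lemma S6_t013 (x : ι → ℤ) : S6 x (fun y => if y 0 + y 1 + y 2 + y 3 + y 4 + y 5 = 0 then t3 (y 0) (y 1) (y 3) else 0) = (NN x 3) ^ 2 := by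
  have hp := S6_perm x ![0, 1, 3, 2, 4, 5] (by decide) (fun y => if y 0 + y 1 + y 2 + y 3 + y 4 + y 5 = 0 then t3 (y 0) (y 1) (y 2) else 0)
  rw [S6_triple x] at hp
  rw [← hp]
  refine S6_congr x fun y => ?_
  show _ = (if y 0 + y 1 + y 3 + y 2 + y 4 + y 5 = 0 then t3 (y 0) (y 1) (y 3) else 0)
  rw [show y 0 + y 1 + y 3 + y 2 + y 4 + y 5 = y 0 + y 1 + y 2 + y 3 + y 4 + y 5 by ring]

lemma S6_t014 (x : ι → ℤ) : S6 x (fun y => if y 0 + y 1 + y 2 + y 3 + y 4 + y 5 = 0 then t3 (y 0) (y 1) (y 4) else 0) = (NN x 3) ^ 2 := by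
  have hp := S6_perm x ![0, 1, 4, 2, 3, 5] (by decide) (fun y => if y 0 + y 1 + y 2 + y 3 + y 4 + y 5 = 0 then t3 (y 0) (y 1) (y 2) else 0)
  rw [S6_triple x] at hp
  rw [← hp]
  refine S6_congr x fun y => ?_
  show _ = (if y 0 + y 1 + y 4 + y 2 + y 3 + y 5 = 0 then t3 (y 0) (y 1) (y 4) else 0)
  rw [show y 0 + y 1 + y 4 + y 2 + y 3 + y 5 = y 0 + y 1 + y 2 + y 3 + y 4 + y 5 by ring]

lemma S6_t015 (x : ι → ℤ) : S6 x (fun y => if y 0 + y 1 + y 2 + y 3 + y 4 + y 5 = 0 then t3 (y 0) (y 1) (y 5) else 0) = (NN x 3) ^ 2 := by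
  have hp := S6_perm x ![0, 1, 5, 2, 3, 4] (by decide) (fun y => if y 0 + y 1 + y 2 + y 3 + y 4 + y 5 = 0 then t3 (y 0) (y 1) (y 2) else 0)
  rw [S6_triple x] at hp
  rw [← hp]
  refine S6_congr x fun y => ?_
  show _ = (if y 0 + y 1 + y 5 + y 2 + y 3 + y 4 = 0 then t3 (y 0) (y 1) (y 5) else 0)
  rw [show y 0 + y 1 + y 5 + y 2 + y 3 + y 4 = y 0 + y 1 + y 2 + y 3 + y 4 + y 5 by ring]

lemma S6_t023 (x : ι → ℤ) : S6 x (fun y => if y 0 + y 1 + y 2 + y 3 + y 4 + y 5 = 0 then t3 (y 0) (y 2) (y 3) else 0) = (NN x 3) ^ 2 := by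
  have hp := S6_perm x ![0, 2, 3, 1, 4, 5] (by decide) (fun y => if y 0 + y 1 + y 2 + y 3 + y 4 + y 5 = 0 then t3 (y 0) (y 1) (y 2) else 0)
  rw [S6_triple x] at hp
  rw [← hp]
  refine S6_congr x fun y => ?_
  show _ = (if y 0 + y 2 + y 3 + y 1 + y 4 + y 5 = 0 then t3 (y 0) (y 2) (y 3) else 0)
  rw [show y 0 + y 2 + y 3 + y 1 + y 4 + y 5 = y 0 + y 1 + y 2 + y 3 + y 4 + y 5 by ring]

lemma S6_t024 (x : ι → ℤ) : S6 x (fun y => if y 0 + y 1 + y 2 + y 3 + y 4 + y 5 = 0 then t3 (y 0) (y 2) (y 4) else 0) = (NN x 3) ^ 2 := by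
  have hp := S6_perm x ![0, 2, 4, 1, 3, 5] (by decide) (fun y => if y 0 + y 1 + y 2 + y 3 + y 4 + y 5 = 0 then t3 (y 0) (y 1) (y 2) else 0)
  rw [S6_triple x] at hp
  rw [← hp]
  refine S6_congr x fun y => ?_
  show _ = (if y 0 + y 2 + y 4 + y 1 + y 3 + y 5 = 0 then t3 (y 0) (y 2) (y 4) else 0)
  rw [show y 0 + y 2 + y 4 + y 1 + y 3 + y 5 = y 0 + y 1 + y 2 + y 3 + y 4 + y 5 by ring]

lemma S6_t025 (x : ι → ℤ) : S6 x (fun y => if y 0 + y 1 + y 2 + y 3 + y 4 + y 5 = 0 then t3 (y 0) (y 2) (y 5) else 0) = (NN x 3) ^ 2 := by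
  have hp := S6_perm x ![0, 2, 5, 1, 3, 4] (by decide) (fun y => if y 0 + y 1 + y 2 + y 3 + y 4 + y 5 = 0 then t3 (y 0) (y 1) (y 2) else 0)
  rw [S6_triple x] at hp
  rw [← hp]
  refine S6_congr x fun y => ?_
  show _ = (if y 0 + y 2 + y 5 + y 1 + y 3 + y 4 = 0 then t3 (y 0) (y 2) (y 5) else 0)
  rw [show y 0 + y 2 + y 5 + y 1 + y 3 + y 4 = y 0 + y 1 + y 2 + y 3 + y 4 + y 5 by ring]

lemma S6_t034 (x : ι → ℤ) : S6 x (fun y => if y 0 + y 1 + y 2 + y 3 + y 4 + y 5 = 0 then t3 (y 0) (y 3) (y 4) else 0) = (NN x 3) ^ 2 := by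
  have hp := S6_perm x ![0, 3, 4, 1, 2, 5] (by decide) (fun y => if y 0 + y 1 + y 2 + y 3 + y 4 + y 5 = 0 then t3 (y 0) (y 1) (y 2) else 0)
  rw [S6_triple x] at hp
  rw [← hp]
  refine S6_congr x fun y => ?_
  show _ = (if y 0 + y 3 + y 4 + y 1 + y 2 + y 5 = 0 then t3 (y 0) (y 3) (y 4) else 0)
  rw [show y 0 + y 3 + y 4 + y 1 + y 2 + y 5 = y 0 + y 1 + y 2 + y 3 + y 4 + y 5 by ring]

lemma S6_t035 (x : ι → ℤ) : S6 x (fun y => if y 0 + y 1 + y 2 + y 3 + y 4 + y 5 = 0 then t3 (y 0) (y 3) (y 5) else 0) = (NN x 3) ^ 2 := by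
  have hp := S6_perm x ![0, 3, 5, 1, 2, 4] (by decide) (fun y => if y 0 + y 1 + y 2 + y 3 + y 4 + y 5 = 0 then t3 (y 0) (y 1) (y 2) else 0)
  rw [S6_triple x] at hp
  rw [← hp]
  refine S6_congr x fun y => ?_
  show _ = (if y 0 + y 3 + y 5 + y 1 + y 2 + y 4 = 0 then t3 (y 0) (y 3) (y 5) else 0)
  rw [show y 0 + y 3 + y 5 + y 1 + y 2 + y 4 = y 0 + y 1 + y 2 + y 3 + y 4 + y 5 by ring]

lemma S6_t045 (x : ι → ℤ) : S6 x (fun y => if y 0 + y 1 + y 2 + y 3 + y 4 + y 5 = 0 then t3 (y 0) (y 4) (y 5) else 0) = (NN x 3) ^ 2 := by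
  have hp := S6_perm x ![0, 4, 5, 1, 2, 3] (by decide) (fun y => if y 0 + y 1 + y 2 + y 3 + y 4 + y 5 = 0 then t3 (y 0) (y 1) (y 2) else 0)
  rw [S6_triple x] at hp
  rw [← hp]
  refine S6_congr x fun y => ?_
  show _ = (if y 0 + y 4 + y 5 + y 1 + y 2 + y 3 = 0 then t3 (y 0) (y 4) (y 5) else 0)
  rw [show y 0 + y 4 + y 5 + y 1 + y 2 + y 3 = y 0 + y 1 + y 2 + y 3 + y 4 + y 5 by ring]

lemma S6_m1 (x : ι → ℤ) : S6 x (fun y => if y 0 + y 1 + y 2 + y 3 + y 4 + y 5 = 0 then e (y 0) (y 1) * e (y 2) (y 4) * e (y 3) (y 5) else 0) = (NN x 2) ^ 3 := by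
  have hp := S6_perm x ![0, 1, 2, 4, 3, 5] (by decide) (fun y => if y 0 + y 1 + y 2 + y 3 + y 4 + y 5 = 0 then e (y 0) (y 1) * e (y 2) (y 3) * e (y 4) (y 5) else 0)
  rw [S6_match x] at hp
  rw [← hp]
  refine S6_congr x fun y => ?_
  show _ = (if y 0 + y 1 + y 2 + y 4 + y 3 + y 5 = 0 then e (y 0) (y 1) * e (y 2) (y 4) * e (y 3) (y 5) else 0)
  rw [show y 0 + y 1 + y 2 + y 4 + y 3 + y 5 = y 0 + y 1 + y 2 + y 3 + y 4 + y 5 by ring]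

lemma S6_m2 (x : ι → ℤ) : S6 x (fun y => if y 0 + y 1 + y 2 + y 3 + y 4 + y 5 = 0 then e (y 0) (y 1) * e (y 2) (y 5) * e (y 3) (y 4) else 0) = (NN x 2) ^ 3 := by
  have hp := S6_perm x ![0, 1, 2, 5, 3, 4] (by decide) (fun y => if y 0 + y 1 + y 2 + y 3 + y 4 + y 5 = 0 then e (y 0) (y 1) * e (y 2) (y 3) * e (y 4) (y 5) else 0)
  rw [S6_match x] at hp
  rw [← hp]
  refine S6_congr x fun y => ?_
  show _ = (if y 0 + y 1 + y 2 + y 5 + y 3 + y 4 = 0 then e (y 0) (y 1) * e (y 2) (y 5) * e (y 3) (y 4) else 0)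
  rw [show y 0 + y 1 + y 2 + y 5 + y 3 + y 4 = y 0 + y 1 + y 2 + y 3 + y 4 + y 5 by ring]

lemma S6_m3 (x : ι → ℤ) : S6 x (fun y => if y 0 + y 1 + y 2 + y 3 + y 4 + y 5 = 0 then e (y 0) (y 2) * e (y 1) (y 3) * e (y 4) (y 5) else 0) = (NN x 2) ^ 3 := by
  have hp := S6_perm x ![0, 2, 1, 3, 4, 5] (by decide) (fun y => if y 0 + y 1 + y 2 + y 3 + y 4 + y 5 = 0 then e (y 0) (y 1) * e (y 2) (y 3) * e (y 4) (y 5) else 0)
  rw [S6_match x] at hp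
  rw [← hp]
  refine S6_congr x fun y => ?_
  show _ = (if y 0 + y 2 + y 1 + y 3 + y 4 + y 5 = 0 then e (y 0) (y 2) * e (y 1) (y 3) * e (y 4) (y 5) else 0)
  rw [show y 0 + y 2 + y 1 + y 3 + y 4 + y 5 = y 0 + y 1 + y 2 + y 3 + y 4 + y 5 by ring]

lemma S6_m4 (x : ι → ℤ) : S6 x (fun y => if y 0 + y 1 + y 2 + y 3 + y 4 + y 5 = 0 then e (y 0) (y 2) * e (y 1) (y 4) * e (y 3) (y 5) else 0) = (NN x 2) ^ 3 := by
  have hp := S6_perm x ![0, 2, 1, 4, 3, 5] (by decide) (fun y => if y 0 + y 1 + y 2 + y 3 + y 4 + y 5 = 0 then e (y 0) (y 1) * e (y 2) (y 3) * e (y 4) (y 5) else 0)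
  rw [S6_match x] at hp
  rw [← hp]
  refine S6_congr x fun y => ?_
  show _ = (if y 0 + y 2 + y 1 + y 4 + y 3 + y 5 = 0 then e (y 0) (y 2) * e (y 1) (y 4) * e (y 3) (y 5) else 0)
  rw [show y 0 + y 2 + y 1 + y 4 + y 3 + y 5 = y 0 + y 1 + y 2 + y 3 + y 4 + y 5 by ring]

lemma S6_m5 (x : ι → ℤ) : S6 x (fun y => if y 0 + y 1 + y 2 + y 3 + y 4 + y 5 = 0 then e (y 0) (y 2) * e (y 1) (y 5) * e (y 3) (y 4) else 0) = (NN x 2) ^ 3 := by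
  have hp := S6_perm x ![0, 2, 1, 5, 3, 4] (by decide) (fun y => if y 0 + y 1 + y 2 + y 3 + y 4 + y 5 = 0 then e (y 0) (y 1) * e (y 2) (y 3) * e (y 4) (y 5) else 0)
  rw [S6_match x] at hp
  rw [← hp]
  refine S6_congr x fun y => ?_
  show _ = (if y 0 + y 2 + y 1 + y 5 + y 3 + y 4 = 0 then e (y 0) (y 2) * e (y 1) (y 5) * e (y 3) (y 4) else 0)
  rw [show y 0 + y 2 + y 1 + y 5 + y 3 + y 4 = y 0 + y 1 + y 2 + y 3 + y 4 + y 5 by ring]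

lemma S6_m6 (x : ι → ℤ) : S6 x (fun y => if y 0 + y 1 + y 2 + y 3 + y 4 + y 5 = 0 then e (y 0) (y 3) * e (y 1) (y 2) * e (y 4) (y 5) else 0) = (NN x 2) ^ 3 := by
  have hp := S6_perm x ![0, 3, 1, 2, 4, 5] (by decide) (fun y => if y 0 + y 1 + y 2 + y 3 + y 4 + y 5 = 0 then e (y 0) (y 1) * e (y 2) (y 3) * e (y 4) (y 5) else 0)
  rw [S6_match x] at hp
  rw [← hp]
  refine S6_congr x fun y => ?_
  show _ = (if y 0 + y 3 + y 1 + y 2 + y 4 + y 5 = 0 then e (y 0) (y 3) * e (y 1) (y 2) * e (y 4) (y 5) else 0)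
  rw [show y 0 + y 3 + y 1 + y 2 + y 4 + y 5 = y 0 + y 1 + y 2 + y 3 + y 4 + y 5 by ring]

lemma S6_m7 (x : ι → ℤ) : S6 x (fun y => if y 0 + y 1 + y 2 + y 3 + y 4 + y 5 = 0 then e (y 0) (y 3) * e (y 1) (y 4) * e (y 2) (y 5) else 0) = (NN x 2) ^ 3 := by
  have hp := S6_perm x ![0, 3, 1, 4, 2, 5] (by decide) (fun y => if y 0 + y 1 + y 2 + y 3 + y 4 + y 5 = 0 then e (y 0) (y 1) * e (y 2) (y 3) * e (y 4) (y 5) else 0)
  rw [S6_match x] at hp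
  rw [← hp]
  refine S6_congr x fun y => ?_
  show _ = (if y 0 + y 3 + y 1 + y 4 + y 2 + y 5 = 0 then e (y 0) (y 3) * e (y 1) (y 4) * e (y 2) (y 5) else 0)
  rw [show y 0 + y 3 + y 1 + y 4 + y 2 + y 5 = y 0 + y 1 + y 2 + y 3 + y 4 + y 5 by ring]

lemma S6_m8 (x : ι → ℤ) : S6 x (fun y => if y 0 + y 1 + y 2 + y 3 + y 4 + y 5 = 0 then e (y 0) (y 3) * e (y 1) (y 5) * e (y 2) (y 4) else 0) = (NN x 2) ^ 3 := by
  have hp := S6_perm x ![0, 3, 1, 5, 2, 4] (by decide) (fun y => if y 0 + y 1 + y 2 + y 3 + y 4 + y 5 = 0 then e (y 0) (y 1) * e (y 2) (y 3) * e (y 4) (y 5) else 0)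
  rw [S6_match x] at hp
  rw [← hp]
  refine S6_congr x fun y => ?_
  show _ = (if y 0 + y 3 + y 1 + y 5 + y 2 + y 4 = 0 then e (y 0) (y 3) * e (y 1) (y 5) * e (y 2) (y 4) else 0)
  rw [show y 0 + y 3 + y 1 + y 5 + y 2 + y 4 = y 0 + y 1 + y 2 + y 3 + y 4 + y 5 by ring]

lemma S6_m9 (x : ι → ℤ) : S6 x (fun y => if y 0 + y 1 + y 2 + y 3 + y 4 + y 5 = 0 then e (y 0) (y 4) * e (y 1) (y 2) * e (y 3) (y 5) else 0) = (NN x 2) ^ 3 := by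
  have hp := S6_perm x ![0, 4, 1, 2, 3, 5] (by decide) (fun y => if y 0 + y 1 + y 2 + y 3 + y 4 + y 5 = 0 then e (y 0) (y 1) * e (y 2) (y 3) * e (y 4) (y 5) else 0)
  rw [S6_match x] at hp
  rw [← hp]
  refine S6_congr x fun y => ?_
  show _ = (if y 0 + y 4 + y 1 + y 2 + y 3 + y 5 = 0 then e (y 0) (y 4) * e (y 1) (y 2) * e (y 3) (y 5) else 0)
  rw [show y 0 + y 4 + y 1 + y 2 + y 3 + y 5 = y 0 + y 1 + y 2 + y 3 + y 4 + y 5 by ring]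

lemma S6_m10 (x : ι → ℤ) : S6 x (fun y => if y 0 + y 1 + y 2 + y 3 + y 4 + y 5 = 0 then e (y 0) (y 4) * e (y 1) (y 3) * e (y 2) (y 5) else 0) = (NN x 2) ^ 3 := by
  have hp := S6_perm x ![0, 4, 1, 3, 2, 5] (by decide) (fun y => if y 0 + y 1 + y 2 + y 3 + y 4 + y 5 = 0 then e (y 0) (y 1) * e (y 2) (y 3) * e (y 4) (y 5) else 0)
  rw [S6_match x] at hp
  rw [← hp]
  refine S6_congr x fun y => ?_
  show _ = (if y 0 + y 4 + y 1 + y 3 + y 2 + y 5 = 0 then e (y 0) (y 4) * e (y 1) (y 3) * e (y 2) (y 5) else 0)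
  rw [show y 0 + y 4 + y 1 + y 3 + y 2 + y 5 = y 0 + y 1 + y 2 + y 3 + y 4 + y 5 by ring]

lemma S6_m11 (x : ι → ℤ) : S6 x (fun y => if y 0 + y 1 + y 2 + y 3 + y 4 + y 5 = 0 then e (y 0) (y 4) * e (y 1) (y 5) * e (y 2) (y 3) else 0) = (NN x 2) ^ 3 := by
  have hp := S6_perm x ![0, 4, 1, 5, 2, 3] (by decide) (fun y => if y 0 + y 1 + y 2 + y 3 + y 4 + y 5 = 0 then e (y 0) (y 1) * e (y 2) (y 3) * e (y 4) (y 5) else 0)
  rw [S6_match x] at hp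
  rw [← hp]
  refine S6_congr x fun y => ?_
  show _ = (if y 0 + y 4 + y 1 + y 5 + y 2 + y 3 = 0 then e (y 0) (y 4) * e (y 1) (y 5) * e (y 2) (y 3) else 0)
  rw [show y 0 + y 4 + y 1 + y 5 + y 2 + y 3 = y 0 + y 1 + y 2 + y 3 + y 4 + y 5 by ring]

lemma S6_m12 (x : ι → ℤ) : S6 x (fun y => if y 0 + y 1 + y 2 + y 3 + y 4 + y 5 = 0 then e (y 0) (y 5) * e (y 1) (y 2) * e (y 3) (y 4) else 0) = (NN x 2) ^ 3 := by
  have hp := S6_perm x ![0, 5, 1, 2, 3, 4] (by decide) (fun y => if y 0 + y 1 + y 2 + y 3 + y 4 + y 5 = 0 then e (y 0) (y 1) * e (y 2) (y 3) * e (y 4) (y 5) else 0)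
  rw [S6_match x] at hp
  rw [← hp]
  refine S6_congr x fun y => ?_
  show _ = (if y 0 + y 5 + y 1 + y 2 + y 3 + y 4 = 0 then e (y 0) (y 5) * e (y 1) (y 2) * e (y 3) (y 4) else 0)
  rw [show y 0 + y 5 + y 1 + y 2 + y 3 + y 4 = y 0 + y 1 + y 2 + y 3 + y 4 + y 5 by ring]

lemma S6_m13 (x : ι → ℤ) : S6 x (fun y => if y 0 + y 1 + y 2 + y 3 + y 4 + y 5 = 0 then e (y 0) (y 5) * e (y 1) (y 3) * e (y 2) (y 4) else 0) = (NN x 2) ^ 3 := by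
  have hp := S6_perm x ![0, 5, 1, 3, 2, 4] (by decide) (fun y => if y 0 + y 1 + y 2 + y 3 + y 4 + y 5 = 0 then e (y 0) (y 1) * e (y 2) (y 3) * e (y 4) (y 5) else 0)
  rw [S6_match x] at hp
  rw [← hp]
  refine S6_congr x fun y => ?_
  show _ = (if y 0 + y 5 + y 1 + y 3 + y 2 + y 4 = 0 then e (y 0) (y 5) * e (y 1) (y 3) * e (y 2) (y 4) else 0)
  rw [show y 0 + y 5 + y 1 + y 3 + y 2 + y 4 = y 0 + y 1 + y 2 + y 3 + y 4 + y 5 by ring]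

lemma S6_m14 (x : ι → ℤ) : S6 x (fun y => if y 0 + y 1 + y 2 + y 3 + y 4 + y 5 = 0 then e (y 0) (y 5) * e (y 1) (y 4) * e (y 2) (y 3) else 0) = (NN x 2) ^ 3 := by
  have hp := S6_perm x ![0, 5, 1, 4, 2, 3] (by decide) (fun y => if y 0 + y 1 + y 2 + y 3 + y 4 + y 5 = 0 then e (y 0) (y 1) * e (y 2) (y 3) * e (y 4) (y 5) else 0)
  rw [S6_match x] at hp
  rw [← hp]
  refine S6_congr x fun y => ?_
  show _ = (if y 0 + y 5 + y 1 + y 4 + y 2 + y 3 = 0 then e (y 0) (y 5) * e (y 1) (y 4) * e (y 2) (y 3) else 0)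
  rw [show y 0 + y 5 + y 1 + y 4 + y 2 + y 3 = y 0 + y 1 + y 2 + y 3 + y 4 + y 5 by ring]

/-- the weight, supported on zero-sum tuples -/
def Wt (y : Fin 6 → ℤ) : ℤ :=
  if y 0 + y 1 + y 2 + y 3 + y 4 + y 5 = 0 then WW (y 0) (y 1) (y 2) (y 3) (y 4) (y 5) else 0

lemma Wt_expand (y : Fin 6 → ℤ) : Wt y = (if y 0 + y 1 + y 2 + y 3 + y 4 + y 5 = 0 then 1 else 0)
    - (if y 0 + y 1 + y 2 + y 3 + y 4 + y 5 = 0 then e (y 0) (y 1) else 0)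
    - (if y 0 + y 1 + y 2 + y 3 + y 4 + y 5 = 0 then e (y 0) (y 2) else 0)
    - (if y 0 + y 1 + y 2 + y 3 + y 4 + y 5 = 0 then e (y 0) (y 3) else 0)
    - (if y 0 + y 1 + y 2 + y 3 + y 4 + y 5 = 0 then e (y 0) (y 4) else 0)
    - (if y 0 + y 1 + y 2 + y 3 + y 4 + y 5 = 0 then e (y 0) (y 5) else 0)
    - (if y 0 + y 1 + y 2 + y 3 + y 4 + y 5 = 0 then e (y 1) (y 2) else 0)
    - (if y 0 + y 1 + y 2 + y 3 + y 4 + y 5 = 0 then e (y 1) (y 3) else 0)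
    - (if y 0 + y 1 + y 2 + y 3 + y 4 + y 5 = 0 then e (y 1) (y 4) else 0)
    - (if y 0 + y 1 + y 2 + y 3 + y 4 + y 5 = 0 then e (y 1) (y 5) else 0)
    - (if y 0 + y 1 + y 2 + y 3 + y 4 + y 5 = 0 then e (y 2) (y 3) else 0)
    - (if y 0 + y 1 + y 2 + y 3 + y 4 + y 5 = 0 then e (y 2) (y 4) else 0)
    - (if y 0 + y 1 + y 2 + y 3 + y 4 + y 5 = 0 then e (y 2) (y 5) else 0)
    - (if y 0 + y 1 + y 2 + y 3 + y 4 + y 5 = 0 then e (y 3) (y 4) else 0)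
    - (if y 0 + y 1 + y 2 + y 3 + y 4 + y 5 = 0 then e (y 3) (y 5) else 0)
    - (if y 0 + y 1 + y 2 + y 3 + y 4 + y 5 = 0 then e (y 4) (y 5) else 0)
    - (if y 0 + y 1 + y 2 + y 3 + y 4 + y 5 = 0 then t3 (y 0) (y 1) (y 2) else 0)
    - (if y 0 + y 1 + y 2 + y 3 + y 4 + y 5 = 0 then t3 (y 0) (y 1) (y 3) else 0)
    - (if y 0 + y 1 + y 2 + y 3 + y 4 + y 5 = 0 then t3 (y 0) (y 1) (y 4) else 0)
    - (if y 0 + y 1 + y 2 + y 3 + y 4 + y 5 = 0 then t3 (y 0) (y 1) (y 5) else 0)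
    - (if y 0 + y 1 + y 2 + y 3 + y 4 + y 5 = 0 then t3 (y 0) (y 2) (y 3) else 0)
    - (if y 0 + y 1 + y 2 + y 3 + y 4 + y 5 = 0 then t3 (y 0) (y 2) (y 4) else 0)
    - (if y 0 + y 1 + y 2 + y 3 + y 4 + y 5 = 0 then t3 (y 0) (y 2) (y 5) else 0)
    - (if y 0 + y 1 + y 2 + y 3 + y 4 + y 5 = 0 then t3 (y 0) (y 3) (y 4) else 0)
    - (if y 0 + y 1 + y 2 + y 3 + y 4 + y 5 = 0 then t3 (y 0) (y 3) (y 5) else 0)
    - (if y 0 + y 1 + y 2 + y 3 + y 4 + y 5 = 0 then t3 (y 0) (y 4) (y 5) else 0)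
    + 2 * (if y 0 + y 1 + y 2 + y 3 + y 4 + y 5 = 0 then e (y 0) (y 1) * e (y 2) (y 3) * e (y 4) (y 5) else 0)
    + 2 * (if y 0 + y 1 + y 2 + y 3 + y 4 + y 5 = 0 then e (y 0) (y 1) * e (y 2) (y 4) * e (y 3) (y 5) else 0)
    + 2 * (if y 0 + y 1 + y 2 + y 3 + y 4 + y 5 = 0 then e (y 0) (y 1) * e (y 2) (y 5) * e (y 3) (y 4) else 0)
    + 2 * (if y 0 + y 1 + y 2 + y 3 + y 4 + y 5 = 0 then e (y 0) (y 2) * e (y 1) (y 3) * e (y 4) (y 5) else 0)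
    + 2 * (if y 0 + y 1 + y 2 + y 3 + y 4 + y 5 = 0 then e (y 0) (y 2) * e (y 1) (y 4) * e (y 3) (y 5) else 0)
    + 2 * (if y 0 + y 1 + y 2 + y 3 + y 4 + y 5 = 0 then e (y 0) (y 2) * e (y 1) (y 5) * e (y 3) (y 4) else 0)
    + 2 * (if y 0 + y 1 + y 2 + y 3 + y 4 + y 5 = 0 then e (y 0) (y 3) * e (y 1) (y 2) * e (y 4) (y 5) else 0)
    + 2 * (if y 0 + y 1 + y 2 + y 3 + y 4 + y 5 = 0 then e (y 0) (y 3) * e (y 1) (y 4) * e (y 2) (y 5) else 0)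
    + 2 * (if y 0 + y 1 + y 2 + y 3 + y 4 + y 5 = 0 then e (y 0) (y 3) * e (y 1) (y 5) * e (y 2) (y 4) else 0)
    + 2 * (if y 0 + y 1 + y 2 + y 3 + y 4 + y 5 = 0 then e (y 0) (y 4) * e (y 1) (y 2) * e (y 3) (y 5) else 0)
    + 2 * (if y 0 + y 1 + y 2 + y 3 + y 4 + y 5 = 0 then e (y 0) (y 4) * e (y 1) (y 3) * e (y 2) (y 5) else 0)
    + 2 * (if y 0 + y 1 + y 2 + y 3 + y 4 + y 5 = 0 then e (y 0) (y 4) * e (y 1) (y 5) * e (y 2) (y 3) else 0)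
    + 2 * (if y 0 + y 1 + y 2 + y 3 + y 4 + y 5 = 0 then e (y 0) (y 5) * e (y 1) (y 2) * e (y 3) (y 4) else 0)
    + 2 * (if y 0 + y 1 + y 2 + y 3 + y 4 + y 5 = 0 then e (y 0) (y 5) * e (y 1) (y 3) * e (y 2) (y 4) else 0)
    + 2 * (if y 0 + y 1 + y 2 + y 3 + y 4 + y 5 = 0 then e (y 0) (y 5) * e (y 1) (y 4) * e (y 2) (y 3) else 0)
    := by
  unfold Wt
  by_cases h : y 0 + y 1 + y 2 + y 3 + y 4 + y 5 = 0
  · simp only [if_pos h]; unfold WW PS TS MS; ring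
  · simp only [if_neg h]; norm_num

theorem S6_Wt (x : ι → ℤ) :
    S6 x Wt = NN x 6 - 15 * NN x 4 * NN x 2 - 10 * (NN x 3) ^ 2 + 30 * (NN x 2) ^ 3 := by
  rw [S6_congr x Wt_expand]
  have h6 := NN6_eq x
  have hp01 := S6_pair x
  have hp02 := S6_p02 x
  have hp03 := S6_p03 x
  have hp04 := S6_p04 x
  have hp05 := S6_p05 x
  have hp12 := S6_p12 x
  have hp13 := S6_p13 x
  have hp14 := S6_p14 x
  have hp15 := S6_p15 x
  have hp23 := S6_p23 x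
  have hp24 := S6_p24 x
  have hp25 := S6_p25 x
  have hp34 := S6_p34 x
  have hp35 := S6_p35 x
  have hp45 := S6_p45 x
  have ht012 := S6_triple x
  have ht013 := S6_t013 x
  have ht014 := S6_t014 x
  have ht015 := S6_t015 x
  have ht023 := S6_t023 x
  have ht024 := S6_t024 x
  have ht025 := S6_t025 x
  have ht034 := S6_t034 x
  have ht035 := S6_t035 x
  have ht045 := S6_t045 x
  have hm0 := S6_match x
  have hm1 := S6_m1 x
  have hm2 := S6_m2 x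
  have hm3 := S6_m3 x
  have hm4 := S6_m4 x
  have hm5 := S6_m5 x
  have hm6 := S6_m6 x
  have hm7 := S6_m7 x
  have hm8 := S6_m8 x
  have hm9 := S6_m9 x
  have hm10 := S6_m10 x
  have hm11 := S6_m11 x
  have hm12 := S6_m12 x
  have hm13 := S6_m13 x
  have hm14 := S6_m14 x
  unfold S6 at *
  simp only [Finset.sum_add_distrib, Finset.sum_sub_distrib, ← Finset.mul_sum]
  rw [← h6, hp01, hp02, hp03, hp04, hp05, hp12, hp13, hp14, hp15, hp23, hp24, hp25, hp34, hp35, hp45, ht012, ht013, ht014, ht015, ht023, ht024, ht025, ht034, ht035, ht045, hm0, hm1, hm2, hm3, hm4, hm5, hm6, hm7, hm8, hm9, hm10, hm11, hm12, hm13, hm14]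
  ring

end Pool.Agent.Lib.MP_e4803a
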