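import Mathlib

/-!
Pointwise analysis of the cumulant weight of a zero-sum 6-tuple of nonzero integers.
-/

namespace Pool.Agent.Lib.MP_e4803a

/-- indicator of `a + b = 0` -/
def e (a b : ℤ) : ℤ := if a + b = 0 then 1 else 0
/-- indicator of `a + b + c = 0` -/
def t3 (a b c : ℤ) : ℤ := if a + b + c = 0 then 1 else 0

lemma e_comm (a b : ℤ) : e a b = e b a := by unfold e; rw [add_comm]
lemma t3_comm (a b c : ℤ) : t3 a b c = t3 a c b := by unfold t3; rw [add_right_comm]
lemma e_zero {a b : ℤ} (h : a + b ≠ 0) : e a b = 0 := by unfold e; rw [if_neg h]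
lemma e_one {a b : ℤ} (h : a + b = 0) : e a b = 1 := by unfold e; rw [if_pos h]
lemma t3_zero {a b c : ℤ} (h : a + b + c ≠ 0) : t3 a b c = 0 := by unfold t3; rw [if_neg h]
lemma t3_one {a b c : ℤ} (h : a + b + c = 0) : t3 a b c = 1 := by unfold t3; rw [if_pos h]
lemma e_nonneg (a b : ℤ) : 0 ≤ e a b := by unfold e; split_ifs <;> norm_num
lemma e_le (a b : ℤ) : e a b ≤ 1 := by unfold e; split_ifs <;> norm_num
lemma e_idem (a b : ℤ) : e a b * e a b = e a b := by unfold e; split_ifs <;> norm_num
lemma t3_nonneg (a b c : ℤ) : 0 ≤ t3 a b c := by unfold t3; split_ifs <;> norm_num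
lemma t3_le (a b c : ℤ) : t3 a b c ≤ 1 := by unfold t3; split_ifs <;> norm_num

/-- number of zero pairs -/
def PS (a b c d f g : ℤ) : ℤ := e a b + e a c + e a d + e a f + e a g + e b c + e b d + e b f + e b g + e c d + e c f + e c g + e d f + e d g + e f g
/-- number of zero perfect matchings -/
def MS (a b c d f g : ℤ) : ℤ := e a b * e c d * e f g + e a b * e c f * e d g + e a b * e c g * e d f + e a c * e b d * e f g + e a c * e b f * e d g + e a c * e b g * e d f + e a d * e b c * e f g + e a d * e b f * e c g + e a d * e b g * e c f + e a f * e b c * e d g + e a f * e b d * e c g + e a f * e b g * e c d + e a g * e b c * e d f + e a g * e b d * e c f + e a g * e b f * e c d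
/-- number of zero 3|3 splits -/
def TS (a b c d f g : ℤ) : ℤ := t3 a b c + t3 a b d + t3 a b f + t3 a b g + t3 a c d + t3 a c f + t3 a c g + t3 a d f + t3 a d g + t3 a f g
/-- the cumulant weight -/
def WW (a b c d f g : ℤ) : ℤ := 1 - PS a b c d f g - TS a b c d f g + 2 * MS a b c d f g

/-- some value of the first triple equals, up to sign, some value of the second one -/
def Cross (a b c d f g : ℤ) : Prop :=
  a.natAbs = d.natAbs ∨ a.natAbs = f.natAbs ∨ a.natAbs = g.natAbs ∨
  b.natAbs = d.natAbs ∨ b.natAbs = f.natAbs ∨ b.natAbs = g.natAbs ∨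
  c.natAbs = d.natAbs ∨ c.natAbs = f.natAbs ∨ c.natAbs = g.natAbs

instance (a b c d f g : ℤ) : Decidable (Cross a b c d f g) := by unfold Cross; infer_instance

/-- first bad configuration (with total sum zero): two zero triples sharing an absolute value -/
def Bad1 (a b c d f g : ℤ) : Prop := a + b + c = 0 ∧ d + f + g = 0 ∧ Cross a b c d f g

instance (a b c d f g : ℤ) : Decidable (Bad1 a b c d f g) := by unfold Bad1; infer_instance

/-- second bad configuration: a zero pair `a,b`, an unpaired zero-sum `c,d,f,g`, sharing an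
absolute value -/
def Bad2 (a b c d f g : ℤ) : Prop :=
  a + b = 0 ∧ c + d + f + g = 0 ∧ c + d ≠ 0 ∧ c + f ≠ 0 ∧ c + g ≠ 0 ∧
    (a.natAbs = c.natAbs ∨ a.natAbs = d.natAbs ∨ a.natAbs = f.natAbs ∨ a.natAbs = g.natAbs)

instance (a b c d f g : ℤ) : Decidable (Bad2 a b c d f g) := by unfold Bad2; infer_instance

lemma prod_zero {a b c d f g : ℤ} (h : ¬ ((a + b = 0) ∧ (c + d = 0) ∧ (f + g = 0))) :
    e a b * e c d * e f g = 0 := by
  by_cases h1 : a + b = 0
  · by_cases h2 : c + d = 0
    · have h3 : f + g ≠ 0 := fun h3 => h ⟨h1, h2, h3⟩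
      rw [e_zero h3, mul_zero]
    · rw [e_zero h2, mul_zero, zero_mul]
  · rw [e_zero h1, zero_mul, zero_mul]

lemma T_base {a b c d f g : ℤ} (ha : a ≠ 0) (hb : b ≠ 0) (hc : c ≠ 0) (hd : d ≠ 0) (hf : f ≠ 0) (hg : g ≠ 0)
    (h1 : a + b + c = 0) (h2 : d + f + g = 0) (hx : ¬ Cross a b c d f g) : WW a b c d f g = 0 := by
  unfold Cross at hx; push Not at hx
  obtain ⟨y1, y2, y3, y4, y5, y6, y7, y8, y9⟩ := hx
  have x1 : a ≠ d := fun h => y1 (by rw [h])
  have x2 : a ≠ -d := fun h => y1 (by rw [h, Int.natAbs_neg])
  have x3 : a ≠ f := fun h => y2 (by rw [h])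
  have x4 : a ≠ -f := fun h => y2 (by rw [h, Int.natAbs_neg])
  have x5 : a ≠ g := fun h => y3 (by rw [h])
  have x6 : a ≠ -g := fun h => y3 (by rw [h, Int.natAbs_neg])
  have x7 : b ≠ d := fun h => y4 (by rw [h])
  have x8 : b ≠ -d := fun h => y4 (by rw [h, Int.natAbs_neg])
  have x9 : b ≠ f := fun h => y5 (by rw [h])
  have x10 : b ≠ -f := fun h => y5 (by rw [h, Int.natAbs_neg])
  have x11 : b ≠ g := fun h => y6 (by rw [h])
  have x12 : b ≠ -g := fun h => y6 (by rw [h, Int.natAbs_neg])
  have x13 : c ≠ d := fun h => y7 (by rw [h])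
  have x14 : c ≠ -d := fun h => y7 (by rw [h, Int.natAbs_neg])
  have x15 : c ≠ f := fun h => y8 (by rw [h])
  have x16 : c ≠ -f := fun h => y8 (by rw [h, Int.natAbs_neg])
  have x17 : c ≠ g := fun h => y9 (by rw [h])
  have x18 : c ≠ -g := fun h => y9 (by rw [h, Int.natAbs_neg])
  have e01 : e a b = 0 := e_zero (fun h => hc (by linarith))
  have e02 : e a c = 0 := e_zero (fun h => hb (by linarith))
  have e03 : e a d = 0 := e_zero (fun h => x2 (by linarith))
  have e04 : e a f = 0 := e_zero (fun h => x4 (by linarith))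
  have e05 : e a g = 0 := e_zero (fun h => x6 (by linarith))
  have e12 : e b c = 0 := e_zero (fun h => ha (by linarith))
  have e13 : e b d = 0 := e_zero (fun h => x8 (by linarith))
  have e14 : e b f = 0 := e_zero (fun h => x10 (by linarith))
  have e15 : e b g = 0 := e_zero (fun h => x12 (by linarith))
  have e23 : e c d = 0 := e_zero (fun h => x14 (by linarith))
  have e24 : e c f = 0 := e_zero (fun h => x16 (by linarith))
  have e25 : e c g = 0 := e_zero (fun h => x18 (by linarith))
  have e34 : e d f = 0 := e_zero (fun h => hg (by linarith))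
  have e35 : e d g = 0 := e_zero (fun h => hf (by linarith))
  have e45 : e f g = 0 := e_zero (fun h => hd (by linarith))
  have t012 : t3 a b c = 1 := t3_one h1
  have t013 : t3 a b d = 0 := t3_zero (fun h => x13 (by linarith))
  have t014 : t3 a b f = 0 := t3_zero (fun h => x15 (by linarith))
  have t015 : t3 a b g = 0 := t3_zero (fun h => x17 (by linarith))
  have t023 : t3 a c d = 0 := t3_zero (fun h => x7 (by linarith))
  have t024 : t3 a c f = 0 := t3_zero (fun h => x9 (by linarith))
  have t025 : t3 a c g = 0 := t3_zero (fun h => x11 (by linarith))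
  have t034 : t3 a d f = 0 := t3_zero (fun h => x5 (by linarith))
  have t035 : t3 a d g = 0 := t3_zero (fun h => x3 (by linarith))
  have t045 : t3 a f g = 0 := t3_zero (fun h => x1 (by linarith))
  unfold WW PS TS MS
  rw [e01, e02, e03, e04, e05, e12, e13, e14, e15, e23, e24, e25, e34, e35, e45, t012, t013, t014, t015, t023, t024, t025, t034, t035, t045]
  norm_num

lemma M_base {a c f : ℤ} (ha : a ≠ 0) (hc : c ≠ 0) (hf : f ≠ 0) :
    0 ≤ 1 - PS a (-a) c (-c) f (-f) + 2 * MS a (-a) c (-c) f (-f) := by
  have e01 : e a (-a) = 1 := e_one (by omega)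
  have e23 : e c (-c) = 1 := e_one (by omega)
  have e45 : e f (-f) = 1 := e_one (by omega)
  have e13 : e (-a) (-c) = e a c := by unfold e; congr 1; simp only [eq_iff_iff]; omega
  have e12 : e (-a) c = e a (-c) := by unfold e; congr 1; simp only [eq_iff_iff]; omega
  have e15 : e (-a) (-f) = e a f := by unfold e; congr 1; simp only [eq_iff_iff]; omega
  have e14 : e (-a) f = e a (-f) := by unfold e; congr 1; simp only [eq_iff_iff]; omega
  have e35 : e (-c) (-f) = e c f := by unfold e; congr 1; simp only [eq_iff_iff]; omega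
  have e34 : e (-c) f = e c (-f) := by unfold e; congr 1; simp only [eq_iff_iff]; omega
  unfold PS MS
  rw [e01, e23, e45, e13, e12, e15, e14, e35, e34]
  have p := e_nonneg a c; have q := e_nonneg a (-c); have r := e_nonneg a f; have s := e_nonneg a (-f)
  have t := e_nonneg c f; have u := e_nonneg c (-f)
  have h1 := mul_nonneg (mul_nonneg p s) t
  have h2 := mul_nonneg (mul_nonneg p r) u
  have h3 := mul_nonneg (mul_nonneg q s) u
  have h4 := mul_nonneg (mul_nonneg q r) t
  have i1 := e_idem a c; have i2 := e_idem a (-c); have i3 := e_idem a f; have i4 := e_idem a (-f)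
  have i5 := e_idem c f; have i6 := e_idem c (-f)
  nlinarith [h1, h2, h3, h4, i1, i2, i3, i4, i5, i6]

lemma P_base {a b c d f g : ℤ} (ha : a ≠ 0) (hb : b ≠ 0) (hc : c ≠ 0) (hd : d ≠ 0) (hf : f ≠ 0) (hg : g ≠ 0)
    (h1 : a + b = 0) (h2 : c + d + f + g = 0) (h3 : c + d ≠ 0) (h4 : c + f ≠ 0) (h5 : c + g ≠ 0)
    (hx : ¬ Bad2 a b c d f g) : PS a b c d f g = 1 := by
  have hy : ¬ (a.natAbs = c.natAbs ∨ a.natAbs = d.natAbs ∨ a.natAbs = f.natAbs ∨ a.natAbs = g.natAbs) :=
    fun h => hx ⟨h1, h2, h3, h4, h5, h⟩
  push Not at hy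
  obtain ⟨y1, y2, y3, y4⟩ := hy
  have x1 : a ≠ c := fun h => y1 (by rw [h])
  have x2 : a ≠ -c := fun h => y1 (by rw [h, Int.natAbs_neg])
  have x3 : a ≠ d := fun h => y2 (by rw [h])
  have x4 : a ≠ -d := fun h => y2 (by rw [h, Int.natAbs_neg])
  have x5 : a ≠ f := fun h => y3 (by rw [h])
  have x6 : a ≠ -f := fun h => y3 (by rw [h, Int.natAbs_neg])
  have x7 : a ≠ g := fun h => y4 (by rw [h])
  have x8 : a ≠ -g := fun h => y4 (by rw [h, Int.natAbs_neg])
  have e01 : e a b = 1 := e_one h1
  have e02 : e a c = 0 := e_zero (fun h => x2 (by linarith))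
  have e03 : e a d = 0 := e_zero (fun h => x4 (by linarith))
  have e04 : e a f = 0 := e_zero (fun h => x6 (by linarith))
  have e05 : e a g = 0 := e_zero (fun h => x8 (by linarith))
  have e12 : e b c = 0 := e_zero (fun h => x1 (by linarith))
  have e13 : e b d = 0 := e_zero (fun h => x3 (by linarith))
  have e14 : e b f = 0 := e_zero (fun h => x5 (by linarith))
  have e15 : e b g = 0 := e_zero (fun h => x7 (by linarith))
  have e23 : e c d = 0 := e_zero (fun h => h3 (by linarith))
  have e24 : e c f = 0 := e_zero (fun h => h4 (by linarith))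
  have e25 : e c g = 0 := e_zero (fun h => h5 (by linarith))
  have e34 : e d f = 0 := e_zero (fun h => h5 (by linarith))
  have e35 : e d g = 0 := e_zero (fun h => h4 (by linarith))
  have e45 : e f g = 0 := e_zero (fun h => h3 (by linarith))
  unfold PS
  rw [e01, e02, e03, e04, e05, e12, e13, e14, e15, e23, e24, e25, e34, e35, e45]
  norm_num

lemma WW_nonneg {a b c d f g : ℤ} (ha : a ≠ 0) (hb : b ≠ 0) (hc : c ≠ 0) (hd : d ≠ 0) (hf : f ≠ 0) (hg : g ≠ 0)
    (hs : a + b + c + d + f + g = 0)
    (hB1_012 : ¬ Bad1 a b c d f g)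
    (hB1_013 : ¬ Bad1 a b d c f g)
    (hB1_014 : ¬ Bad1 a b f c d g)
    (hB1_015 : ¬ Bad1 a b g c d f)
    (hB1_023 : ¬ Bad1 a c d b f g)
    (hB1_024 : ¬ Bad1 a c f b d g)
    (hB1_025 : ¬ Bad1 a c g b d f)
    (hB1_034 : ¬ Bad1 a d f b c g)
    (hB1_035 : ¬ Bad1 a d g b c f)
    (hB1_045 : ¬ Bad1 a f g b c d)
    (hB2_01 : ¬ Bad2 a b c d f g)
    (hB2_02 : ¬ Bad2 a c b d f g)
    (hB2_03 : ¬ Bad2 a d b c f g)
    (hB2_04 : ¬ Bad2 a f b c d g)
    (hB2_05 : ¬ Bad2 a g b c d f)
    (hB2_12 : ¬ Bad2 b c a d f g)
    (hB2_13 : ¬ Bad2 b d a c f g)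
    (hB2_14 : ¬ Bad2 b f a c d g)
    (hB2_15 : ¬ Bad2 b g a c d f)
    (hB2_23 : ¬ Bad2 c d a b f g)
    (hB2_24 : ¬ Bad2 c f a b d g)
    (hB2_25 : ¬ Bad2 c g a b d f)
    (hB2_34 : ¬ Bad2 d f a b c g)
    (hB2_35 : ¬ Bad2 d g a b c f)
    (hB2_45 : ¬ Bad2 f g a b c d)
    : 0 ≤ WW a b c d f g := by
  by_cases T012 : a + b + c = 0
  · have hx : ¬ Cross a b c d f g := fun h => hB1_012 ⟨T012, by omega, h⟩
    have := T_base ha hb hc hd hf hg T012 (by omega) hx
    have hp : WW a b c d f g = WW a b c d f g := by
      unfold WW PS TS MS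
      ring
    omega
  by_cases T013 : a + b + d = 0
  · have hx : ¬ Cross a b d c f g := fun h => hB1_013 ⟨T013, by omega, h⟩
    have := T_base ha hb hd hc hf hg T013 (by omega) hx
    have hp : WW a b c d f g = WW a b d c f g := by
      unfold WW PS TS MS
      rw [e_comm d c, t3_comm a d c]
      ring
    omega
  by_cases T014 : a + b + f = 0
  · have hx : ¬ Cross a b f c d g := fun h => hB1_014 ⟨T014, by omega, h⟩
    have := T_base ha hb hf hc hd hg T014 (by omega) hx
    have hp : WW a b c d f g = WW a b f c d g := by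
      unfold WW PS TS MS
      rw [e_comm f c, e_comm f d, t3_comm a f c, t3_comm a f d]
      ring
    omega
  by_cases T015 : a + b + g = 0
  · have hx : ¬ Cross a b g c d f := fun h => hB1_015 ⟨T015, by omega, h⟩
    have := T_base ha hb hg hc hd hf T015 (by omega) hx
    have hp : WW a b c d f g = WW a b g c d f := by
      unfold WW PS TS MS
      rw [e_comm g c, e_comm g d, e_comm g f, t3_comm a g c, t3_comm a g d, t3_comm a g f]
      ring
    omega
  by_cases T023 : a + c + d = 0
  · have hx : ¬ Cross a c d b f g := fun h => hB1_023 ⟨T023, by omega, h⟩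
    have := T_base ha hc hd hb hf hg T023 (by omega) hx
    have hp : WW a b c d f g = WW a c d b f g := by
      unfold WW PS TS MS
      rw [e_comm c b, e_comm d b, t3_comm a c b, t3_comm a d b]
      ring
    omega
  by_cases T024 : a + c + f = 0
  · have hx : ¬ Cross a c f b d g := fun h => hB1_024 ⟨T024, by omega, h⟩
    have := T_base ha hc hf hb hd hg T024 (by omega) hx
    have hp : WW a b c d f g = WW a c f b d g := by
      unfold WW PS TS MS
      rw [e_comm c b, e_comm f b, e_comm f d, t3_comm a c b, t3_comm a f b, t3_comm a f d]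
      ring
    omega
  by_cases T025 : a + c + g = 0
  · have hx : ¬ Cross a c g b d f := fun h => hB1_025 ⟨T025, by omega, h⟩
    have := T_base ha hc hg hb hd hf T025 (by omega) hx
    have hp : WW a b c d f g = WW a c g b d f := by
      unfold WW PS TS MS
      rw [e_comm c b, e_comm g b, e_comm g d, e_comm g f, t3_comm a c b, t3_comm a g b, t3_comm a g d, t3_comm a g f]
      ring
    omega
  by_cases T034 : a + d + f = 0
  · have hx : ¬ Cross a d f b c g := fun h => hB1_034 ⟨T034, by omega, h⟩
    have := T_base ha hd hf hb hc hg T034 (by omega) hx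
    have hp : WW a b c d f g = WW a d f b c g := by
      unfold WW PS TS MS
      rw [e_comm d b, e_comm d c, e_comm f b, e_comm f c, t3_comm a d b, t3_comm a d c, t3_comm a f b, t3_comm a f c]
      ring
    omega
  by_cases T035 : a + d + g = 0
  · have hx : ¬ Cross a d g b c f := fun h => hB1_035 ⟨T035, by omega, h⟩
    have := T_base ha hd hg hb hc hf T035 (by omega) hx
    have hp : WW a b c d f g = WW a d g b c f := by
      unfold WW PS TS MS
      rw [e_comm d b, e_comm d c, e_comm g b, e_comm g c, e_comm g f, t3_comm a d b, t3_comm a d c, t3_comm a g b, t3_comm a g c, t3_comm a g f]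
      ring
    omega
  by_cases T045 : a + f + g = 0
  · have hx : ¬ Cross a f g b c d := fun h => hB1_045 ⟨T045, by omega, h⟩
    have := T_base ha hf hg hb hc hd T045 (by omega) hx
    have hp : WW a b c d f g = WW a f g b c d := by
      unfold WW PS TS MS
      rw [e_comm f b, e_comm f c, e_comm f d, e_comm g b, e_comm g c, e_comm g d, t3_comm a f b, t3_comm a f c, t3_comm a f d, t3_comm a g b, t3_comm a g c, t3_comm a g d]
      ring
    omega
  have hTS : TS a b c d f g = 0 := by
    unfold TS
    rw [t3_zero T012, t3_zero T013, t3_zero T014, t3_zero T015, t3_zero T023, t3_zero T024, t3_zero T025, t3_zero T034, t3_zero T035, t3_zero T045]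
    norm_num
  have hW : WW a b c d f g = 1 - PS a b c d f g + 2 * MS a b c d f g := by unfold WW; rw [hTS]; ring
  rw [hW]
  by_cases M0 : (a + b = 0) ∧ (c + d = 0) ∧ (f + g = 0)
  · obtain ⟨m1, m2, m3⟩ := M0
    have := M_base ha hc hf
    have n0 : -a = b := by omega
    have n1 : -c = d := by omega
    have n2 : -f = g := by omega
    rw [n0, n1, n2] at this
    have hp1 : PS a b c d f g = PS a b c d f g := by
      unfold PS
      ring
    have hp2 : MS a b c d f g = MS a b c d f g := by
      unfold MS
      ring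
    rw [hp1, hp2]; exact this
  by_cases M1 : (a + b = 0) ∧ (c + f = 0) ∧ (d + g = 0)
  · obtain ⟨m1, m2, m3⟩ := M1
    have := M_base ha hc hd
    have n0 : -a = b := by omega
    have n1 : -c = f := by omega
    have n2 : -d = g := by omega
    rw [n0, n1, n2] at this
    have hp1 : PS a b c d f g = PS a b c f d g := by
      unfold PS
      rw [e_comm f d]
      ring
    have hp2 : MS a b c d f g = MS a b c f d g := by
      unfold MS
      rw [e_comm f d]
      ring
    rw [hp1, hp2]; exact this
  by_cases M2 : (a + b = 0) ∧ (c + g = 0) ∧ (d + f = 0)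
  · obtain ⟨m1, m2, m3⟩ := M2
    have := M_base ha hc hd
    have n0 : -a = b := by omega
    have n1 : -c = g := by omega
    have n2 : -d = f := by omega
    rw [n0, n1, n2] at this
    have hp1 : PS a b c d f g = PS a b c g d f := by
      unfold PS
      rw [e_comm g d, e_comm g f]
      ring
    have hp2 : MS a b c d f g = MS a b c g d f := by
      unfold MS
      rw [e_comm g d, e_comm g f]
      ring
    rw [hp1, hp2]; exact this
  by_cases M3 : (a + c = 0) ∧ (b + d = 0) ∧ (f + g = 0)
  · obtain ⟨m1, m2, m3⟩ := M3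
    have := M_base ha hb hf
    have n0 : -a = c := by omega
    have n1 : -b = d := by omega
    have n2 : -f = g := by omega
    rw [n0, n1, n2] at this
    have hp1 : PS a b c d f g = PS a c b d f g := by
      unfold PS
      rw [e_comm c b]
      ring
    have hp2 : MS a b c d f g = MS a c b d f g := by
      unfold MS
      rw [e_comm c b]
      ring
    rw [hp1, hp2]; exact this
  by_cases M4 : (a + c = 0) ∧ (b + f = 0) ∧ (d + g = 0)
  · obtain ⟨m1, m2, m3⟩ := M4
    have := M_base ha hb hd
    have n0 : -a = c := by omega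
    have n1 : -b = f := by omega
    have n2 : -d = g := by omega
    rw [n0, n1, n2] at this
    have hp1 : PS a b c d f g = PS a c b f d g := by
      unfold PS
      rw [e_comm c b, e_comm f d]
      ring
    have hp2 : MS a b c d f g = MS a c b f d g := by
      unfold MS
      rw [e_comm c b, e_comm f d]
      ring
    rw [hp1, hp2]; exact this
  by_cases M5 : (a + c = 0) ∧ (b + g = 0) ∧ (d + f = 0)
  · obtain ⟨m1, m2, m3⟩ := M5
    have := M_base ha hb hd
    have n0 : -a = c := by omega
    have n1 : -b = g := by omega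
    have n2 : -d = f := by omega
    rw [n0, n1, n2] at this
    have hp1 : PS a b c d f g = PS a c b g d f := by
      unfold PS
      rw [e_comm c b, e_comm g d, e_comm g f]
      ring
    have hp2 : MS a b c d f g = MS a c b g d f := by
      unfold MS
      rw [e_comm c b, e_comm g d, e_comm g f]
      ring
    rw [hp1, hp2]; exact this
  by_cases M6 : (a + d = 0) ∧ (b + c = 0) ∧ (f + g = 0)
  · obtain ⟨m1, m2, m3⟩ := M6
    have := M_base ha hb hf
    have n0 : -a = d := by omega
    have n1 : -b = c := by omega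
    have n2 : -f = g := by omega
    rw [n0, n1, n2] at this
    have hp1 : PS a b c d f g = PS a d b c f g := by
      unfold PS
      rw [e_comm d b, e_comm d c]
      ring
    have hp2 : MS a b c d f g = MS a d b c f g := by
      unfold MS
      rw [e_comm d b, e_comm d c]
      ring
    rw [hp1, hp2]; exact this
  by_cases M7 : (a + d = 0) ∧ (b + f = 0) ∧ (c + g = 0)
  · obtain ⟨m1, m2, m3⟩ := M7
    have := M_base ha hb hc
    have n0 : -a = d := by omega
    have n1 : -b = f := by omega
    have n2 : -c = g := by omega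
    rw [n0, n1, n2] at this
    have hp1 : PS a b c d f g = PS a d b f c g := by
      unfold PS
      rw [e_comm d b, e_comm d c, e_comm f c]
      ring
    have hp2 : MS a b c d f g = MS a d b f c g := by
      unfold MS
      rw [e_comm d b, e_comm d c, e_comm f c]
      ring
    rw [hp1, hp2]; exact this
  by_cases M8 : (a + d = 0) ∧ (b + g = 0) ∧ (c + f = 0)
  · obtain ⟨m1, m2, m3⟩ := M8
    have := M_base ha hb hc
    have n0 : -a = d := by omega
    have n1 : -b = g := by omega
    have n2 : -c = f := by omega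
    rw [n0, n1, n2] at this
    have hp1 : PS a b c d f g = PS a d b g c f := by
      unfold PS
      rw [e_comm d b, e_comm d c, e_comm g c, e_comm g f]
      ring
    have hp2 : MS a b c d f g = MS a d b g c f := by
      unfold MS
      rw [e_comm d b, e_comm d c, e_comm g c, e_comm g f]
      ring
    rw [hp1, hp2]; exact this
  by_cases M9 : (a + f = 0) ∧ (b + c = 0) ∧ (d + g = 0)
  · obtain ⟨m1, m2, m3⟩ := M9
    have := M_base ha hb hd
    have n0 : -a = f := by omega
    have n1 : -b = c := by omega
    have n2 : -d = g := by omega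
    rw [n0, n1, n2] at this
    have hp1 : PS a b c d f g = PS a f b c d g := by
      unfold PS
      rw [e_comm f b, e_comm f c, e_comm f d]
      ring
    have hp2 : MS a b c d f g = MS a f b c d g := by
      unfold MS
      rw [e_comm f b, e_comm f c, e_comm f d]
      ring
    rw [hp1, hp2]; exact this
  by_cases M10 : (a + f = 0) ∧ (b + d = 0) ∧ (c + g = 0)
  · obtain ⟨m1, m2, m3⟩ := M10
    have := M_base ha hb hc
    have n0 : -a = f := by omega
    have n1 : -b = d := by omega
    have n2 : -c = g := by omega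
    rw [n0, n1, n2] at this
    have hp1 : PS a b c d f g = PS a f b d c g := by
      unfold PS
      rw [e_comm f b, e_comm f d, e_comm f c, e_comm d c]
      ring
    have hp2 : MS a b c d f g = MS a f b d c g := by
      unfold MS
      rw [e_comm f b, e_comm f d, e_comm f c, e_comm d c]
      ring
    rw [hp1, hp2]; exact this
  by_cases M11 : (a + f = 0) ∧ (b + g = 0) ∧ (c + d = 0)
  · obtain ⟨m1, m2, m3⟩ := M11
    have := M_base ha hb hc
    have n0 : -a = f := by omega
    have n1 : -b = g := by omega
    have n2 : -c = d := by omega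
    rw [n0, n1, n2] at this
    have hp1 : PS a b c d f g = PS a f b g c d := by
      unfold PS
      rw [e_comm f b, e_comm f c, e_comm f d, e_comm g c, e_comm g d]
      ring
    have hp2 : MS a b c d f g = MS a f b g c d := by
      unfold MS
      rw [e_comm f b, e_comm f c, e_comm f d, e_comm g c, e_comm g d]
      ring
    rw [hp1, hp2]; exact this
  by_cases M12 : (a + g = 0) ∧ (b + c = 0) ∧ (d + f = 0)
  · obtain ⟨m1, m2, m3⟩ := M12
    have := M_base ha hb hd
    have n0 : -a = g := by omega
    have n1 : -b = c := by omega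
    have n2 : -d = f := by omega
    rw [n0, n1, n2] at this
    have hp1 : PS a b c d f g = PS a g b c d f := by
      unfold PS
      rw [e_comm g b, e_comm g c, e_comm g d, e_comm g f]
      ring
    have hp2 : MS a b c d f g = MS a g b c d f := by
      unfold MS
      rw [e_comm g b, e_comm g c, e_comm g d, e_comm g f]
      ring
    rw [hp1, hp2]; exact this
  by_cases M13 : (a + g = 0) ∧ (b + d = 0) ∧ (c + f = 0)
  · obtain ⟨m1, m2, m3⟩ := M13
    have := M_base ha hb hc
    have n0 : -a = g := by omega
    have n1 : -b = d := by omega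
    have n2 : -c = f := by omega
    rw [n0, n1, n2] at this
    have hp1 : PS a b c d f g = PS a g b d c f := by
      unfold PS
      rw [e_comm g b, e_comm g d, e_comm g c, e_comm g f, e_comm d c]
      ring
    have hp2 : MS a b c d f g = MS a g b d c f := by
      unfold MS
      rw [e_comm g b, e_comm g d, e_comm g c, e_comm g f, e_comm d c]
      ring
    rw [hp1, hp2]; exact this
  by_cases M14 : (a + g = 0) ∧ (b + f = 0) ∧ (c + d = 0)
  · obtain ⟨m1, m2, m3⟩ := M14
    have := M_base ha hb hc
    have n0 : -a = g := by omega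
    have n1 : -b = f := by omega
    have n2 : -c = d := by omega
    rw [n0, n1, n2] at this
    have hp1 : PS a b c d f g = PS a g b f c d := by
      unfold PS
      rw [e_comm g b, e_comm g f, e_comm g c, e_comm g d, e_comm f c, e_comm f d]
      ring
    have hp2 : MS a b c d f g = MS a g b f c d := by
      unfold MS
      rw [e_comm g b, e_comm g f, e_comm g c, e_comm g d, e_comm f c, e_comm f d]
      ring
    rw [hp1, hp2]; exact this
  have hMS : MS a b c d f g = 0 := by
    have z0 : e a b * e c d * e f g = 0 := prod_zero M0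
    have z1 : e a b * e c f * e d g = 0 := prod_zero M1
    have z2 : e a b * e c g * e d f = 0 := prod_zero M2
    have z3 : e a c * e b d * e f g = 0 := prod_zero M3
    have z4 : e a c * e b f * e d g = 0 := prod_zero M4
    have z5 : e a c * e b g * e d f = 0 := prod_zero M5
    have z6 : e a d * e b c * e f g = 0 := prod_zero M6
    have z7 : e a d * e b f * e c g = 0 := prod_zero M7
    have z8 : e a d * e b g * e c f = 0 := prod_zero M8
    have z9 : e a f * e b c * e d g = 0 := prod_zero M9
    have z10 : e a f * e b d * e c g = 0 := prod_zero M10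
    have z11 : e a f * e b g * e c d = 0 := prod_zero M11
    have z12 : e a g * e b c * e d f = 0 := prod_zero M12
    have z13 : e a g * e b d * e c f = 0 := prod_zero M13
    have z14 : e a g * e b f * e c d = 0 := prod_zero M14
    unfold MS
    rw [z0, z1, z2, z3, z4, z5, z6, z7, z8, z9, z10, z11, z12, z13, z14]
    norm_num
  rw [hMS]
  by_cases Q01 : a + b = 0
  · have := P_base ha hb hc hd hf hg Q01 (by omega)
      (fun h => M0 ⟨by omega, by omega, by omega⟩)
      (fun h => M1 ⟨by omega, by omega, by omega⟩)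
      (fun h => M2 ⟨by omega, by omega, by omega⟩)
      hB2_01
    have hp1 : PS a b c d f g = PS a b c d f g := by
      unfold PS
      ring
    omega
  by_cases Q02 : a + c = 0
  · have := P_base ha hc hb hd hf hg Q02 (by omega)
      (fun h => M3 ⟨by omega, by omega, by omega⟩)
      (fun h => M4 ⟨by omega, by omega, by omega⟩)
      (fun h => M5 ⟨by omega, by omega, by omega⟩)
      hB2_02
    have hp1 : PS a b c d f g = PS a c b d f g := by
      unfold PS
      rw [e_comm c b]
      ring
    omega
  by_cases Q03 : a + d = 0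
  · have := P_base ha hd hb hc hf hg Q03 (by omega)
      (fun h => M6 ⟨by omega, by omega, by omega⟩)
      (fun h => M7 ⟨by omega, by omega, by omega⟩)
      (fun h => M8 ⟨by omega, by omega, by omega⟩)
      hB2_03
    have hp1 : PS a b c d f g = PS a d b c f g := by
      unfold PS
      rw [e_comm d b, e_comm d c]
      ring
    omega
  by_cases Q04 : a + f = 0
  · have := P_base ha hf hb hc hd hg Q04 (by omega)
      (fun h => M9 ⟨by omega, by omega, by omega⟩)
      (fun h => M10 ⟨by omega, by omega, by omega⟩)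
      (fun h => M11 ⟨by omega, by omega, by omega⟩)
      hB2_04
    have hp1 : PS a b c d f g = PS a f b c d g := by
      unfold PS
      rw [e_comm f b, e_comm f c, e_comm f d]
      ring
    omega
  by_cases Q05 : a + g = 0
  · have := P_base ha hg hb hc hd hf Q05 (by omega)
      (fun h => M12 ⟨by omega, by omega, by omega⟩)
      (fun h => M13 ⟨by omega, by omega, by omega⟩)
      (fun h => M14 ⟨by omega, by omega, by omega⟩)
      hB2_05
    have hp1 : PS a b c d f g = PS a g b c d f := by
      unfold PS
      rw [e_comm g b, e_comm g c, e_comm g d, e_comm g f]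
      ring
    omega
  by_cases Q12 : b + c = 0
  · have := P_base hb hc ha hd hf hg Q12 (by omega)
      (fun h => M6 ⟨by omega, by omega, by omega⟩)
      (fun h => M9 ⟨by omega, by omega, by omega⟩)
      (fun h => M12 ⟨by omega, by omega, by omega⟩)
      hB2_12
    have hp1 : PS a b c d f g = PS b c a d f g := by
      unfold PS
      rw [e_comm b a, e_comm c a]
      ring
    omega
  by_cases Q13 : b + d = 0
  · have := P_base hb hd ha hc hf hg Q13 (by omega)
      (fun h => M3 ⟨by omega, by omega, by omega⟩)
      (fun h => M10 ⟨by omega, by omega, by omega⟩)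
      (fun h => M13 ⟨by omega, by omega, by omega⟩)
      hB2_13
    have hp1 : PS a b c d f g = PS b d a c f g := by
      unfold PS
      rw [e_comm b a, e_comm d a, e_comm d c]
      ring
    omega
  by_cases Q14 : b + f = 0
  · have := P_base hb hf ha hc hd hg Q14 (by omega)
      (fun h => M4 ⟨by omega, by omega, by omega⟩)
      (fun h => M7 ⟨by omega, by omega, by omega⟩)
      (fun h => M14 ⟨by omega, by omega, by omega⟩)
      hB2_14
    have hp1 : PS a b c d f g = PS b f a c d g := by
      unfold PS
      rw [e_comm b a, e_comm f a, e_comm f c, e_comm f d]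
      ring
    omega
  by_cases Q15 : b + g = 0
  · have := P_base hb hg ha hc hd hf Q15 (by omega)
      (fun h => M5 ⟨by omega, by omega, by omega⟩)
      (fun h => M8 ⟨by omega, by omega, by omega⟩)
      (fun h => M11 ⟨by omega, by omega, by omega⟩)
      hB2_15
    have hp1 : PS a b c d f g = PS b g a c d f := by
      unfold PS
      rw [e_comm b a, e_comm g a, e_comm g c, e_comm g d, e_comm g f]
      ring
    omega
  by_cases Q23 : c + d = 0
  · have := P_base hc hd ha hb hf hg Q23 (by omega)
      (fun h => M0 ⟨by omega, by omega, by omega⟩)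
      (fun h => M11 ⟨by omega, by omega, by omega⟩)
      (fun h => M14 ⟨by omega, by omega, by omega⟩)
      hB2_23
    have hp1 : PS a b c d f g = PS c d a b f g := by
      unfold PS
      rw [e_comm c a, e_comm c b, e_comm d a, e_comm d b]
      ring
    omega
  by_cases Q24 : c + f = 0
  · have := P_base hc hf ha hb hd hg Q24 (by omega)
      (fun h => M1 ⟨by omega, by omega, by omega⟩)
      (fun h => M8 ⟨by omega, by omega, by omega⟩)
      (fun h => M13 ⟨by omega, by omega, by omega⟩)
      hB2_24
    have hp1 : PS a b c d f g = PS c f a b d g := by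
      unfold PS
      rw [e_comm c a, e_comm c b, e_comm f a, e_comm f b, e_comm f d]
      ring
    omega
  by_cases Q25 : c + g = 0
  · have := P_base hc hg ha hb hd hf Q25 (by omega)
      (fun h => M2 ⟨by omega, by omega, by omega⟩)
      (fun h => M7 ⟨by omega, by omega, by omega⟩)
      (fun h => M10 ⟨by omega, by omega, by omega⟩)
      hB2_25
    have hp1 : PS a b c d f g = PS c g a b d f := by
      unfold PS
      rw [e_comm c a, e_comm c b, e_comm g a, e_comm g b, e_comm g d, e_comm g f]
      ring
    omega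
  by_cases Q34 : d + f = 0
  · have := P_base hd hf ha hb hc hg Q34 (by omega)
      (fun h => M2 ⟨by omega, by omega, by omega⟩)
      (fun h => M5 ⟨by omega, by omega, by omega⟩)
      (fun h => M12 ⟨by omega, by omega, by omega⟩)
      hB2_34
    have hp1 : PS a b c d f g = PS d f a b c g := by
      unfold PS
      rw [e_comm d a, e_comm d b, e_comm d c, e_comm f a, e_comm f b, e_comm f c]
      ring
    omega
  by_cases Q35 : d + g = 0
  · have := P_base hd hg ha hb hc hf Q35 (by omega)
      (fun h => M1 ⟨by omega, by omega, by omega⟩)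
      (fun h => M4 ⟨by omega, by omega, by omega⟩)
      (fun h => M9 ⟨by omega, by omega, by omega⟩)
      hB2_35
    have hp1 : PS a b c d f g = PS d g a b c f := by
      unfold PS
      rw [e_comm d a, e_comm d b, e_comm d c, e_comm g a, e_comm g b, e_comm g c, e_comm g f]
      ring
    omega
  by_cases Q45 : f + g = 0
  · have := P_base hf hg ha hb hc hd Q45 (by omega)
      (fun h => M0 ⟨by omega, by omega, by omega⟩)
      (fun h => M3 ⟨by omega, by omega, by omega⟩)
      (fun h => M6 ⟨by omega, by omega, by omega⟩)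
      hB2_45
    have hp1 : PS a b c d f g = PS f g a b c d := by
      unfold PS
      rw [e_comm f a, e_comm f b, e_comm f c, e_comm f d, e_comm g a, e_comm g b, e_comm g c, e_comm g d]
      ring
    omega
  have hPS : PS a b c d f g = 0 := by
    unfold PS
    rw [e_zero Q01, e_zero Q02, e_zero Q03, e_zero Q04, e_zero Q05, e_zero Q12, e_zero Q13, e_zero Q14, e_zero Q15, e_zero Q23, e_zero Q24, e_zero Q25, e_zero Q34, e_zero Q35, e_zero Q45]
    norm_num
  rw [hPS]; norm_num

lemma WW_eq_one {a b c d f g : ℤ}
    (Q01 : a + b ≠ 0)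
    (Q02 : a + c ≠ 0)
    (Q03 : a + d ≠ 0)
    (Q04 : a + f ≠ 0)
    (Q05 : a + g ≠ 0)
    (Q12 : b + c ≠ 0)
    (Q13 : b + d ≠ 0)
    (Q14 : b + f ≠ 0)
    (Q15 : b + g ≠ 0)
    (Q23 : c + d ≠ 0)
    (Q24 : c + f ≠ 0)
    (Q25 : c + g ≠ 0)
    (Q34 : d + f ≠ 0)
    (Q35 : d + g ≠ 0)
    (Q45 : f + g ≠ 0)
    (T012 : a + b + c ≠ 0)
    (T013 : a + b + d ≠ 0)
    (T014 : a + b + f ≠ 0)
    (T015 : a + b + g ≠ 0)
    (T023 : a + c + d ≠ 0)
    (T024 : a + c + f ≠ 0)
    (T025 : a + c + g ≠ 0)
    (T034 : a + d + f ≠ 0)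
    (T035 : a + d + g ≠ 0)
    (T045 : a + f + g ≠ 0)
    : WW a b c d f g = 1 := by
  unfold WW PS TS MS
  rw [e_zero Q01, e_zero Q02, e_zero Q03, e_zero Q04, e_zero Q05, e_zero Q12, e_zero Q13, e_zero Q14, e_zero Q15, e_zero Q23, e_zero Q24, e_zero Q25, e_zero Q34, e_zero Q35, e_zero Q45, t3_zero T012, t3_zero T013, t3_zero T014, t3_zero T015, t3_zero T023, t3_zero T024, t3_zero T025, t3_zero T034, t3_zero T035, t3_zero T045]
  norm_num

lemma WW_lower (a b c d f g : ℤ) : -24 ≤ WW a b c d f g := by
  unfold WW PS TS MS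
  have l01 := e_le a b
  have l02 := e_le a c
  have l03 := e_le a d
  have l04 := e_le a f
  have l05 := e_le a g
  have l12 := e_le b c
  have l13 := e_le b d
  have l14 := e_le b f
  have l15 := e_le b g
  have l23 := e_le c d
  have l24 := e_le c f
  have l25 := e_le c g
  have l34 := e_le d f
  have l35 := e_le d g
  have l45 := e_le f g
  have n01 := e_nonneg a b
  have n02 := e_nonneg a c
  have n03 := e_nonneg a d
  have n04 := e_nonneg a f
  have n05 := e_nonneg a g
  have n12 := e_nonneg b c
  have n13 := e_nonneg b d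
  have n14 := e_nonneg b f
  have n15 := e_nonneg b g
  have n23 := e_nonneg c d
  have n24 := e_nonneg c f
  have n25 := e_nonneg c g
  have n34 := e_nonneg d f
  have n35 := e_nonneg d g
  have n45 := e_nonneg f g
  have l012 := t3_le a b c
  have l013 := t3_le a b d
  have l014 := t3_le a b f
  have l015 := t3_le a b g
  have l023 := t3_le a c d
  have l024 := t3_le a c f
  have l025 := t3_le a c g
  have l034 := t3_le a d f
  have l035 := t3_le a d g
  have l045 := t3_le a f g
  have z0 := mul_nonneg (mul_nonneg n01 n23) n45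
  have z1 := mul_nonneg (mul_nonneg n01 n24) n35
  have z2 := mul_nonneg (mul_nonneg n01 n25) n34
  have z3 := mul_nonneg (mul_nonneg n02 n13) n45
  have z4 := mul_nonneg (mul_nonneg n02 n14) n35
  have z5 := mul_nonneg (mul_nonneg n02 n15) n34
  have z6 := mul_nonneg (mul_nonneg n03 n12) n45
  have z7 := mul_nonneg (mul_nonneg n03 n14) n25
  have z8 := mul_nonneg (mul_nonneg n03 n15) n24
  have z9 := mul_nonneg (mul_nonneg n04 n12) n35
  have z10 := mul_nonneg (mul_nonneg n04 n13) n25
  have z11 := mul_nonneg (mul_nonneg n04 n15) n23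
  have z12 := mul_nonneg (mul_nonneg n05 n12) n34
  have z13 := mul_nonneg (mul_nonneg n05 n13) n24
  have z14 := mul_nonneg (mul_nonneg n05 n14) n23
  linarith

end Pool.Agent.Lib.MP_e4803a
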